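import Mathlib

/-!
# Module Par: parametric integrals and division

* `contDiff_par`: `e ↦ ∫₀¹ F (e, τ) dτ` is smooth. PROOF. For `F` of class `C¹` the function `g e = ∫₀¹ F (e, τ) dτ` has the derivative `∫₀¹ D₁F (e, τ) dτ`, `D₁F (e, τ) = fderiv ℝ F (e, τ) ∘ inl` (`intervalIntegral.hasFDerivAt_integral_of_dominated_of_fderiv_le`, the bound: `D₁F` is continuous, so bounded on the compact set
`closedBall e₀ 1 ×ˢ Icc 0 1`, `E` is finite dimensional). Induction on `n`, for all `V` at once: `ContDiff ℝ n g` for every smooth `F : E × ℝ → V` (`contDiff_succ_iff_fderiv`, `V` replaced by `E →L[ℝ] V`; continuity for `n = 0`: the derivative exists); `contDiff_infty`.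
* `contDiff_prim`: `∫₀ᵗ f (s, τ) dτ = t ∫₀¹ f (s, t σ) dσ` (`intervalIntegral.integral_comp_mul_left` or `mul_integral_comp_mul_left`/`smul_integral_comp_mul_left`; also for `t = 0`).
* `exists_div`: `g (s, x) = ∫₀¹ D₂f (s, a + τ (x - a)) dτ`, fundamental theorem for `τ ↦ f (s, a + τ (x - a))`.
* `exists_div2`: `exists_div` at `1`, then at `-1` (`f = (x - 1) g` and `f (s, -1) = 0` give `g (s, -1) = 0`), sign.
-/

set_option autoImplicit false

open scoped ContDiff Topology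
open Set Filter MeasureTheory

namespace Pool.Agent.H86.PL

section

variable {E V : Type} [NormedAddCommGroup E] [NormedSpace ℝ E] [NormedAddCommGroup V]
  [NormedSpace ℝ V]

/-- the partial derivative in the first variable -/
private noncomputable def par_D (F : E × ℝ → V) (p : E × ℝ) : E →L[ℝ] V :=
  (fderiv ℝ F p).comp (ContinuousLinearMap.inl ℝ E ℝ)

private lemma par_D_smooth {F : E × ℝ → V} (hF : ContDiff ℝ ∞ F) : ContDiff ℝ ∞ (par_D F) := by
  have h1 : ContDiff ℝ ∞ (fderiv ℝ F) := hF.fderiv_right (by simp)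
  exact h1.clm_comp contDiff_const

private lemma par_D_has {F : E × ℝ → V} (hF : ContDiff ℝ ∞ F) (e : E) (τ : ℝ) :
    HasFDerivAt (fun x => F (x, τ)) (par_D F (e, τ)) e := by
  have h1 : HasFDerivAt F (fderiv ℝ F (e, τ)) (e, τ) :=
    (hF.differentiable (by simp) (e, τ)).hasFDerivAt
  have h2 : HasFDerivAt (fun x : E => (x, τ)) (ContinuousLinearMap.inl ℝ E ℝ) e :=
    hasFDerivAt_prodMk_left e τ
  exact h1.comp e h2

private lemma par_deriv [FiniteDimensional ℝ E] [CompleteSpace V] {F : E × ℝ → V}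
    (hF : ContDiff ℝ ∞ F) (e₀ : E) :
    HasFDerivAt (fun e => ∫ τ in (0 : ℝ)..1, F (e, τ))
      (∫ τ in (0 : ℝ)..1, par_D F (e₀, τ)) e₀ := by
  have : ProperSpace E := FiniteDimensional.proper ℝ E
  have hDc : Continuous (par_D F) := (par_D_smooth hF).continuous
  obtain ⟨C, hC⟩ := ((isCompact_closedBall e₀ 1).prod
    (isCompact_Icc (a := (0 : ℝ)) (b := 1))).exists_bound_of_continuousOn hDc.continuousOn
  have hcF : ∀ e, Continuous fun τ : ℝ => F (e, τ) := fun e =>
    hF.continuous.comp (by fun_prop : Continuous fun τ : ℝ => (e, τ))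
  refine intervalIntegral.hasFDerivAt_integral_of_dominated_of_fderiv_le
    (F := fun e τ => F (e, τ)) (F' := fun e τ => par_D F (e, τ)) (bound := fun _ => C)
    (s := Metric.closedBall e₀ 1) (Metric.closedBall_mem_nhds e₀ one_pos)
    (Eventually.of_forall fun e => (hcF e).aestronglyMeasurable)
    ((hcF e₀).intervalIntegrable _ _) ?_ ?_ intervalIntegrable_const ?_
  · exact (hDc.comp (by fun_prop : Continuous fun τ : ℝ => (e₀, τ))).aestronglyMeasurable
  · refine Eventually.of_forall fun τ hτ e he => hC (e, τ) ⟨he, ?_⟩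
    rw [uIoc_of_le zero_le_one] at hτ
    exact ⟨hτ.1.le, hτ.2⟩
  · exact Eventually.of_forall fun τ _ e _ => par_D_has hF e τ

end

private lemma par_ind {E : Type} [NormedAddCommGroup E] [NormedSpace ℝ E]
    [FiniteDimensional ℝ E] (n : ℕ) : ∀ (V : Type) [NormedAddCommGroup V] [NormedSpace ℝ V]
    [CompleteSpace V] (F : E × ℝ → V), ContDiff ℝ ∞ F →
      ContDiff ℝ n fun e => ∫ τ in (0 : ℝ)..1, F (e, τ) := by
  induction n with
  | zero =>
    intro V _ _ _ F hF
    rw [Nat.cast_zero, contDiff_zero, continuous_iff_continuousAt]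
    exact fun e => (par_deriv hF e).continuousAt
  | succ n ih =>
    intro V _ _ _ F hF
    have h1 : ((n + 1 : ℕ) : WithTop ℕ∞) = (n : WithTop ℕ∞) + 1 := by norm_cast
    rw [h1, contDiff_succ_iff_fderiv]
    refine ⟨fun e => (par_deriv hF e).differentiableAt, fun h => ?_, ?_⟩
    · exact absurd h (by simp)
    · have h2 : fderiv ℝ (fun e => ∫ τ in (0 : ℝ)..1, F (e, τ)) =
          fun e => ∫ τ in (0 : ℝ)..1, par_D F (e, τ) := by
        funext e
        exact (par_deriv hF e).fderiv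
      rw [h2]
      exact ih (E →L[ℝ] V) (par_D F) (par_D_smooth hF)

theorem contDiff_par {E V : Type} [NormedAddCommGroup E] [NormedSpace ℝ E] [FiniteDimensional ℝ E]
    [NormedAddCommGroup V] [NormedSpace ℝ V] [CompleteSpace V] {F : E × ℝ → V}
    (hF : ContDiff ℝ ∞ F) : ContDiff ℝ ∞ fun e => ∫ τ in (0 : ℝ)..1, F (e, τ) := by
  rw [contDiff_infty]
  exact fun n => par_ind n V F hF

theorem contDiff_prim {V : Type} [NormedAddCommGroup V] [NormedSpace ℝ V] [CompleteSpace V]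
    {f : ℝ × ℝ → V} (hf : ContDiff ℝ ∞ f) :
    ContDiff ℝ ∞ fun p : ℝ × ℝ => ∫ τ in (0 : ℝ)..p.2, f (p.1, τ) := by
  have e : (fun p : ℝ × ℝ => ∫ τ in (0 : ℝ)..p.2, f (p.1, τ)) =
      fun p : ℝ × ℝ => p.2 • ∫ σ in (0 : ℝ)..1, f (p.1, p.2 * σ) := by
    funext p
    have h := intervalIntegral.smul_integral_comp_mul_left (fun τ => f (p.1, τ)) p.2
      (a := 0) (b := 1)
    rw [mul_zero, mul_one] at h
    exact h.symm
  rw [e]
  have h1 : ContDiff ℝ ∞ fun q : (ℝ × ℝ) × ℝ => f (q.1.1, q.1.2 * q.2) :=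
    hf.comp (by fun_prop)
  exact contDiff_snd.smul (contDiff_par (F := fun q : (ℝ × ℝ) × ℝ => f (q.1.1, q.1.2 * q.2)) h1)

theorem exists_div {V : Type} [NormedAddCommGroup V] [NormedSpace ℝ V] [CompleteSpace V]
    {f : ℝ × ℝ → V} (hf : ContDiff ℝ ∞ f) (a : ℝ) (h0 : ∀ s, f (s, a) = 0) :
    ∃ g : ℝ × ℝ → V, ContDiff ℝ ∞ g ∧ ∀ s x, f (s, x) = (x - a) • g (s, x) := by
  have hD : ContDiff ℝ ∞ fun p : ℝ × ℝ => fderiv ℝ f p (0, 1) :=
    (hf.fderiv_right (m := ∞) (by simp)).clm_apply contDiff_const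
  have hG : ContDiff ℝ ∞ fun q : (ℝ × ℝ) × ℝ =>
      fderiv ℝ f (q.1.1, a + q.2 * (q.1.2 - a)) (0, 1) := by
    have h1 : ContDiff ℝ ∞ fun q : (ℝ × ℝ) × ℝ => (q.1.1, a + q.2 * (q.1.2 - a)) := by fun_prop
    exact hD.comp h1
  refine ⟨fun p => ∫ τ in (0 : ℝ)..1, fderiv ℝ f (p.1, a + τ * (p.2 - a)) (0, 1),
    contDiff_par hG, fun s x => ?_⟩
  have hder : ∀ τ ∈ uIcc (0 : ℝ) 1, HasDerivAt (fun τ : ℝ => f (s, a + τ * (x - a)))
      ((x - a) • fderiv ℝ f (s, a + τ * (x - a)) (0, 1)) τ := by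
    intro τ _
    have h1 : HasFDerivAt f (fderiv ℝ f (s, a + τ * (x - a))) (s, a + τ * (x - a)) :=
      (hf.differentiable (by simp) _).hasFDerivAt
    have h2 : HasDerivAt (fun τ : ℝ => (s, a + τ * (x - a))) ((0 : ℝ), x - a) τ := by
      refine (hasDerivAt_const τ s).prodMk ?_
      have h3 := ((hasDerivAt_id τ).mul_const (x - a)).const_add a
      simpa using h3
    have h4 := h1.comp_hasDerivAt τ h2
    have h5 : ((0 : ℝ), x - a) = (x - a) • ((0 : ℝ), (1 : ℝ)) := by simp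
    rw [h5, map_smul] at h4
    exact h4
  have hcont : Continuous fun τ : ℝ => (x - a) • fderiv ℝ f (s, a + τ * (x - a)) (0, 1) := by
    have h1 : Continuous fun τ : ℝ => (s, a + τ * (x - a)) := by fun_prop
    exact (hD.continuous.comp h1).const_smul (x - a)
  have h := intervalIntegral.integral_eq_sub_of_hasDerivAt hder (hcont.intervalIntegrable _ _)
  rw [intervalIntegral.integral_smul] at h
  have e1 : a + 1 * (x - a) = x := by ring
  have e0 : a + 0 * (x - a) = a := by ring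
  rw [e1, e0, h0 s, sub_zero] at h
  exact h.symm

theorem exists_div2 {V : Type} [NormedAddCommGroup V] [NormedSpace ℝ V] [CompleteSpace V]
    {f : ℝ × ℝ → V} (hf : ContDiff ℝ ∞ f) (h1 : ∀ s, f (s, 1) = 0) (h2 : ∀ s, f (s, -1) = 0) :
    ∃ g : ℝ × ℝ → V, ContDiff ℝ ∞ g ∧ ∀ s x, f (s, x) = (1 - x ^ 2) • g (s, x) := by
  obtain ⟨g, hg, hfg⟩ := exists_div hf 1 h1
  have h3 : ∀ s, g (s, -1) = 0 := by
    intro s
    have h4 := hfg s (-1)
    rw [h2 s] at h4
    have h5 : ((-1 : ℝ) - 1) ≠ 0 := by norm_num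
    exact (smul_eq_zero.1 h4.symm).resolve_left h5
  obtain ⟨k, hk, hgk⟩ := exists_div hg (-1) h3
  refine ⟨fun p => -k p, hk.neg, fun s x => ?_⟩
  rw [hfg s x, hgk s x, smul_smul, smul_neg, ← neg_smul]
  congr 1
  ring

end Pool.Agent.H86.PL
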