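import Pool.Agent.H86.PL.Defs
import Pool.Agent.H2.TG.Glue

/-!
# Module ExtK: extension of a function from the arcs to the plane

PROOF. `exists_glue` with `V = ℝ × ℂ`, `t (s, w) = {v | ∀ x ∈ Icc (-1) 1, b (s, x) = w → v = G (s, x)}` (convex: one `x` at most, or directly from the definition). Local solutions at `(s₀, w₀)`. CASE A: `w₀ ≠ b (s₀, x)` for all `x ∈ [-1, 1]`. The set `{(s, w) | ∃ x ∈ Icc (-1) 1, b (s, x) = w}` is closed (it is the image under the projection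
along the compact set `Icc (-1) 1` of the closed set `{(p, x) | b (p.1, x) = p.2}`: `IsCompact.isClosed_... ` / `isClosedMap_snd_of_compactSpace` style, or by sequences), so on its complement `g = 0` works. CASE B: `w₀ = b (s₀, x₀)`. `v₀ = d2 b (s₀, x₀) ≠ 0` (`imm`; `deriv (fun x => b (s₀, x)) x₀ = d2 b (s₀, x₀)`).
`l w = (conj v₀ * w).re`, real linear, `l v₀ = ‖v₀‖² ≠ 0`. The map `Φ (s, x) = (s, l (b (s, x)))` of `ℝ × ℝ` has an invertible derivative at `(s₀, x₀)` (`(σ, ξ) ↦ (σ, a σ + ‖v₀‖² ξ)`); inverse function theorem (`ContDiffAt.toOpenPartialHomeomorph`, `ContDiffAt.to_localInverse`, both for `n = ∞`, `∞ ≠ 0`): open `U ∋ (s₀, x₀)`, an open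
`W ∋ Φ (s₀, x₀)`, `ψ` smooth on `W`, `ψ (Φ p) = p` for `p ∈ U`, `Φ p ∈ W` for `p ∈ U`. Put `g (s, w) = G (ψ (s, l w))`, smooth on the open set `{(s, w) | (s, l w) ∈ W}`. There is a neighbourhood of `(s₀, w₀)` in which `b (s, x) = w`, `x ∈ [-1, 1]` imply `(s, x) ∈ U`: otherwise points `(s_n, x_n) ∉ U`, `x_n ∈ [-1, 1]`, `s_n → s₀`,
`b (s_n, x_n) → w₀`; a subsequence `x_n → x*`, `b (s₀, x*) = w₀ = b (s₀, x₀)`, `x* = x₀` (`inj`), contradiction (or: the set of `(s, w)` with `b (s, x) = w` for some `x ∈ [-1, 1]` with `(s, x) ∉ U` is closed as in CASE A and does not contain `(s₀, w₀)`). In it `g (s, w) = G (ψ (Φ (s, x))) = G (s, x)`.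
-/

set_option autoImplicit false

open scoped ContDiff Topology
open Set Filter

namespace Pool.Agent.H86.PL

variable {β : ℝ → ℂ} {b : ℝ × ℝ → ℂ}

/-- the points over a set of parameters form a closed set -/
private lemma extK_closed (hb : Continuous b) {S : Set (ℝ × ℝ)} (hS : IsClosed S) :
    IsClosed {p : ℝ × ℂ | ∃ x ∈ Icc (-1 : ℝ) 1, (p.1, x) ∈ S ∧ b (p.1, x) = p.2} := by
  have hcl : IsClosed {q : (ℝ × ℂ) × (Icc (-1 : ℝ) 1) |
      ((q.1.1, (q.2 : ℝ)) : ℝ × ℝ) ∈ S ∧ b (q.1.1, (q.2 : ℝ)) = q.1.2} := by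
    have h1 : Continuous (fun q : (ℝ × ℂ) × (Icc (-1 : ℝ) 1) => ((q.1.1, (q.2 : ℝ)) : ℝ × ℝ)) := by
      fun_prop
    exact (hS.preimage h1).inter (isClosed_eq (hb.comp h1) (by fun_prop))
  have h2 := isClosedMap_fst_of_compactSpace _ hcl
  have h3 : {p : ℝ × ℂ | ∃ x ∈ Icc (-1 : ℝ) 1, (p.1, x) ∈ S ∧ b (p.1, x) = p.2} =
      Prod.fst '' {q : (ℝ × ℂ) × (Icc (-1 : ℝ) 1) |
      ((q.1.1, (q.2 : ℝ)) : ℝ × ℝ) ∈ S ∧ b (q.1.1, (q.2 : ℝ)) = q.1.2} := by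
    ext p
    constructor
    · rintro ⟨x, hx, h4, h5⟩
      exact ⟨(p, ⟨x, hx⟩), ⟨h4, h5⟩, rfl⟩
    · rintro ⟨⟨q, x⟩, ⟨h4, h5⟩, rfl⟩
      exact ⟨x.1, x.2, h4, h5⟩
  rw [h3]
  exact h2

/-- a linear endomorphism of the plane of the form `(σ, ξ) ↦ (σ, a σ + c ξ)`, `c ≠ 0` -/
private lemma extK_equiv (L : ℝ × ℝ →L[ℝ] ℝ × ℝ) (h1 : ∀ v, (L v).1 = v.1)
    (h2 : (L (0, 1)).2 ≠ 0) : ∃ L' : (ℝ × ℝ) ≃L[ℝ] (ℝ × ℝ), (L' : ℝ × ℝ →L[ℝ] ℝ × ℝ) = L := by
  have hinj : Function.Injective (L : ℝ × ℝ →ₗ[ℝ] ℝ × ℝ) := by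
    rw [injective_iff_map_eq_zero]
    intro v hv
    have hv : L v = 0 := hv
    have h3 : v.1 = 0 := by rw [← h1 v, hv]; rfl
    have h4 : v = v.2 • ((0, 1) : ℝ × ℝ) := by
      ext
      · simp [h3]
      · simp
    have h5 : v.2 * (L (0, 1)).2 = 0 := by
      have h6 : L v = v.2 • L (0, 1) := by
        conv_lhs => rw [h4]
        exact map_smul L _ _
      have h7 : (L v).2 = 0 := by rw [hv]; rfl
      rw [h6] at h7
      exact h7
    have h8 : v.2 = 0 := by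
      rcases mul_eq_zero.mp h5 with h | h
      · exact h
      · exact absurd h h2
    exact Prod.ext h3 h8
  refine ⟨(LinearEquiv.ofInjectiveEndo (L : ℝ × ℝ →ₗ[ℝ] ℝ × ℝ) hinj).toContinuousLinearEquiv, ?_⟩
  ext <;> rfl

theorem exists_k (h : ArcIso β b) {G : ℝ × ℝ → ℝ} (hG : ContDiff ℝ ∞ G) :
    ∃ k : ℝ × ℂ → ℝ, ContDiff ℝ ∞ k ∧ ∀ s, ∀ x ∈ Icc (-1 : ℝ) 1, k (s, b (s, x)) = G (s, x) := by
  have hbc : Continuous b := h.smooth.continuous
  obtain ⟨k, hk, hkt⟩ := Pool.Agent.H2.TG.exists_glue (V := ℝ × ℂ)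
    (fun p => {v : ℝ | ∀ x ∈ Icc (-1 : ℝ) 1, b (p.1, x) = p.2 → v = G (p.1, x)}) (by
      intro p v hv v' hv' c c' _ _ hcc x hx hbx
      rw [hv x hx hbx, hv' x hx hbx, smul_eq_mul, smul_eq_mul, ← add_mul, hcc, one_mul]) (by
    rintro ⟨s₀, w₀⟩
    by_cases hw : ∃ x₀ ∈ Icc (-1 : ℝ) 1, b (s₀, x₀) = w₀
    · obtain ⟨x₀, hx₀, hbx⟩ := hw
      -- the linear form
      have hd : ∀ p : ℝ × ℝ, HasFDerivAt b (fderiv ℝ b p) p := fun p =>
        (h.smooth.differentiable (by norm_num) p).hasFDerivAt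
      have hv₀ : fderiv ℝ b (s₀, x₀) (0, 1) ≠ 0 := by
        have h1 := (h.arc s₀).imm x₀ hx₀
        have h2 : HasDerivAt (fun x : ℝ => b (s₀, x)) (fderiv ℝ b (s₀, x₀) (0, 1)) x₀ := by
          have h3 : HasDerivAt (fun x : ℝ => ((s₀, x) : ℝ × ℝ)) ((0, 1) : ℝ × ℝ) x₀ :=
            (hasDerivAt_const x₀ s₀).prodMk (hasDerivAt_id x₀)
          exact (hd (s₀, x₀)).comp_hasDerivAt x₀ h3
        rw [h2.deriv] at h1
        exact h1
      obtain ⟨v₀, hv⟩ : ∃ v, v = fderiv ℝ b (s₀, x₀) (0, 1) := ⟨_, rfl⟩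
      rw [← hv] at hv₀
      let l : ℂ →L[ℝ] ℝ := Complex.reCLM.comp ((ContinuousLinearMap.mul ℝ ℂ) (starRingEnd ℂ v₀))
      have hl : l v₀ ≠ 0 := by
        have h1 : l v₀ = (starRingEnd ℂ v₀ * v₀).re := rfl
        rw [h1, mul_comm, Complex.mul_conj, Complex.ofReal_re]
        exact (Complex.normSq_pos.mpr hv₀).ne'
      let Φ : ℝ × ℝ → ℝ × ℝ := fun p => (p.1, l (b p))
      have hΦ : ContDiff ℝ ∞ Φ := contDiff_fst.prodMk (l.contDiff.comp h.smooth)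
      have hΦd : ∀ p : ℝ × ℝ, HasFDerivAt Φ
          ((ContinuousLinearMap.fst ℝ ℝ ℝ).prod (l.comp (fderiv ℝ b p))) p := fun p =>
        hasFDerivAt_fst.prodMk (l.hasFDerivAt.comp p (hd p))
      have hinv : ∀ p : ℝ × ℝ, l (fderiv ℝ b p (0, 1)) ≠ 0 → ∃ L' : (ℝ × ℝ) ≃L[ℝ] (ℝ × ℝ),
          HasFDerivAt Φ (L' : ℝ × ℝ →L[ℝ] ℝ × ℝ) p := by
        intro p hp
        obtain ⟨L', hL'⟩ := extK_equiv
          ((ContinuousLinearMap.fst ℝ ℝ ℝ).prod (l.comp (fderiv ℝ b p))) (fun v => rfl) hp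
        exact ⟨L', by rw [hL']; exact hΦd p⟩
      have hl0 : l (fderiv ℝ b (s₀, x₀) (0, 1)) ≠ 0 := by rw [← hv]; exact hl
      obtain ⟨L₀, hL₀⟩ := hinv (s₀, x₀) hl0
      let e := (hΦ.contDiffAt (x := (s₀, x₀))).toOpenPartialHomeomorph Φ hL₀ (by norm_num)
      have he : ∀ p, e p = Φ p := fun p => rfl
      have hes : (s₀, x₀) ∈ e.source :=
        (hΦ.contDiffAt (x := (s₀, x₀))).mem_toOpenPartialHomeomorph_source hL₀ (by norm_num)
      -- the good set of parameters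
      have hdc : Continuous (fun p : ℝ × ℝ => l (fderiv ℝ b p (0, 1))) := by
        have h1 : Continuous (fderiv ℝ b) := h.smooth.continuous_fderiv (by norm_num)
        exact l.continuous.comp (h1.clm_apply continuous_const)
      let U : Set (ℝ × ℝ) := e.source ∩ {p | l (fderiv ℝ b p (0, 1)) ≠ 0}
      have hUo : IsOpen U := e.open_source.inter (isOpen_ne_fun hdc continuous_const)
      have hU0 : (s₀, x₀) ∈ U := ⟨hes, hl0⟩
      let W' : Set (ℝ × ℝ) := e.target ∩ e.symm ⁻¹' U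
      have hW'o : IsOpen W' := e.isOpen_inter_preimage_symm hUo
      have hΦU : ∀ p ∈ U, Φ p ∈ W' ∧ e.symm (Φ p) = p := by
        intro p hp
        have h1 : e.symm (Φ p) = p := by
          rw [← he p]
          exact e.left_inv hp.1
        refine ⟨⟨?_, ?_⟩, h1⟩
        · rw [← he p]
          exact e.map_source hp.1
        · show e.symm (Φ p) ∈ U
          rw [h1]
          exact hp
      have hsm : ContDiffOn ℝ ∞ e.symm W' := by
        intro a ha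
        obtain ⟨L', hL'⟩ := hinv (e.symm a) ha.2.2
        exact (e.contDiffAt_symm ha.1 hL' hΦ.contDiffAt).contDiffWithinAt
      let q : ℝ × ℂ → ℝ × ℝ := fun p => (p.1, l p.2)
      have hq : ContDiff ℝ ∞ q := contDiff_fst.prodMk (l.contDiff.comp contDiff_snd)
      have hcl := extK_closed (b := b) hbc hUo.isClosed_compl
      refine ⟨{p : ℝ × ℂ | ∃ x ∈ Icc (-1 : ℝ) 1, (p.1, x) ∈ Uᶜ ∧ b (p.1, x) = p.2}ᶜ ∩ q ⁻¹' W',
        hcl.isOpen_compl.inter (hW'o.preimage hq.continuous), ⟨?_, ?_⟩,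
        fun p => G (e.symm (q p)), ?_, ?_⟩
      · rintro ⟨x, hx, h1, h2⟩
        have h3 : x = x₀ := (h.arc s₀).inj x hx x₀ hx₀ (h2.trans hbx.symm)
        rw [h3] at h1
        exact h1 hU0
      · show q (s₀, w₀) ∈ W'
        have h1 := (hΦU _ hU0).1
        have h2 : q (s₀, w₀) = Φ (s₀, x₀) := by
          show ((s₀, l w₀) : ℝ × ℝ) = (s₀, l (b (s₀, x₀)))
          rw [hbx]
        rw [h2]
        exact h1
      · exact hG.comp_contDiffOn (hsm.comp hq.contDiffOn (fun p hp => hp.2))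
      · rintro ⟨s, w⟩ ⟨hy1, hy2⟩ x hx hbw
        have hbw : b (s, x) = w := hbw
        have hxU : (s, x) ∈ U := by
          by_contra hc
          exact hy1 ⟨x, hx, hc, hbw⟩
        have h1 := (hΦU _ hxU).2
        have h2 : q (s, w) = Φ (s, x) := by
          show ((s, l w) : ℝ × ℝ) = (s, l (b (s, x)))
          rw [hbw]
        show G (e.symm (q (s, w))) = G (s, x)
        rw [h2, h1]
    · have hcl := extK_closed (b := b) hbc (isClosed_univ (X := ℝ × ℝ))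
      refine ⟨_, hcl.isOpen_compl, ?_, fun _ => 0, contDiffOn_const, ?_⟩
      · rintro ⟨x, hx, -, h2⟩
        exact hw ⟨x, hx, h2⟩
      · intro y hy x hx hbx
        exact absurd ⟨x, hx, mem_univ _, hbx⟩ hy)
  exact ⟨k, hk, fun s x hx => hkt (s, b (s, x)) x hx rfl⟩

end Pool.Agent.H86.PL
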