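import Pool.Agent.H86.PL.LiftB
import Pool.Agent.H2.TI.SExt

/-!
# Module HamG: the Hamiltonian along the arcs

PROOF. `D` from `exists_D`; `m` from `exists_div2` for `d1 b` (`b (s, ±1)` does not depend on `s`): `d1 b (s, x) = (1 - x²) • m (s, x)`. By `lift_rel`, with `S = sin (c (s, t))`, `x = cos t`: `S * d2 c = sin t • d2 b`, `S * d1 c = -(sin² t) • m`, `‖S‖² = ‖S²‖ = sin² t ‖D‖`. Hence
`sin² t ‖D‖ * (conj (d1 c) * d2 c) = conj (S * d1 c) * (S * d2 c) = -sin³ t • (conj m * d2 b)`, and for `sin t ≠ 0`: (1) `(conj (d1 c) * d2 c).im = -sin t * (conj m * d2 b).im / ‖D‖` at `(s, cos t)`. Both sides are continuous in `t` and `{t : sin t ≠ 0}` is dense, so (1) holds for all `t`.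
`g = (conj m * d2 b).im / ‖D‖` is smooth on the open set `O = {D ≠ 0}` (`ContDiffAt.norm` needs `D ≠ 0`), which contains the closed set `T = {x ∈ [-1, 1]}`: `exists_ext` gives `g'` smooth on `ℝ × ℝ` with `g' = g` on `T`. `G (s, x) = ∫₀ˣ g' (s, y) dy` (`contDiff_prim`), `∂_x G = g'`, and the derivative of
`t ↦ G (s, cos t)` is `-sin t * g (s, cos t)`, which is `(conj (d1 c) * d2 c).im = (d1 c).re * (d2 c).im - (d1 c).im * (d2 c).re` by (1).
-/

set_option autoImplicit false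

open scoped ContDiff Topology ComplexConjugate
open Set Filter

namespace Pool.Agent.H86.PL

variable {β : ℝ → ℂ} {b c : ℝ × ℝ → ℂ}

private lemma hamg_smooth1 {f : ℝ × ℝ → ℂ} (hf : ContDiff ℝ ∞ f) : ContDiff ℝ ∞ (d1 f) := by
  unfold d1
  exact (hf.fderiv_right (m := ∞) (by simp)).clm_apply contDiff_const

private lemma hamg_smooth2 {f : ℝ × ℝ → ℂ} (hf : ContDiff ℝ ∞ f) : ContDiff ℝ ∞ (d2 f) := by
  unfold d2
  exact (hf.fderiv_right (m := ∞) (by simp)).clm_apply contDiff_const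

private lemma hamg_const {f : ℝ × ℝ → ℂ} (hf : ContDiff ℝ ∞ f) {x : ℝ} {v : ℂ}
    (h : ∀ s, f (s, x) = v) (s : ℝ) : d1 f (s, x) = 0 := by
  have h1 : HasFDerivAt f (fderiv ℝ f (s, x)) (s, x) :=
    (hf.differentiable (by simp) _).hasFDerivAt
  have h2 : HasDerivAt (fun s : ℝ => (s, x)) ((1 : ℝ), (0 : ℝ)) s :=
    (hasDerivAt_id s).prodMk (hasDerivAt_const s x)
  have h3 := h1.comp_hasDerivAt s h2
  have h4 : (f ∘ fun s : ℝ => (s, x)) = fun _ => v := by
    funext s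
    exact h s
  rw [h4] at h3
  exact h3.unique (hasDerivAt_const s v)

/-- the identity at the points with `sin t ≠ 0` -/
private lemma hamg_alg {S c1 c2 m b2 D : ℂ} {σ : ℝ} (hσ : σ ≠ 0) (hD : D ≠ 0)
    (h1 : S * c2 = σ • b2) (h2 : S * c1 = -(σ ^ 2 • m)) (h3 : S ^ 2 = σ ^ 2 • D) :
    c1.re * c2.im - c1.im * c2.re = -σ * ((conj m * b2).im / ‖D‖) := by
  have e1 : (conj c1 * c2).im = c1.re * c2.im - c1.im * c2.re := by
    rw [Complex.mul_im, Complex.conj_re, Complex.conj_im]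
    ring
  have e2 : ((‖S‖ ^ 2 : ℝ) : ℂ) * (conj c1 * c2) = conj (S * c1) * (S * c2) := by
    rw [map_mul, Complex.ofReal_pow, ← Complex.conj_mul']
    ring
  have e3 : ‖S‖ ^ 2 = σ ^ 2 * ‖D‖ := by
    rw [← norm_pow, h3, norm_smul, Real.norm_eq_abs, abs_of_nonneg (sq_nonneg σ)]
  have e4 : conj (S * c1) * (S * c2) = ((-(σ ^ 3) : ℝ) : ℂ) * (conj m * b2) := by
    rw [h1, h2, map_neg, Complex.real_smul, Complex.real_smul, map_mul, Complex.conj_ofReal]
    push_cast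
    ring
  rw [e4, e3] at e2
  have e5 := congrArg Complex.im e2
  rw [Complex.im_ofReal_mul, Complex.im_ofReal_mul, e1] at e5
  have hD2 : ‖D‖ ≠ 0 := norm_ne_zero_iff.2 hD
  have e6 : σ ^ 2 * ((c1.re * c2.im - c1.im * c2.re) * ‖D‖ + σ * (conj m * b2).im) = 0 := by
    linear_combination e5
  have e7 : (c1.re * c2.im - c1.im * c2.re) * ‖D‖ + σ * (conj m * b2).im = 0 :=
    (mul_eq_zero.1 e6).resolve_left (pow_ne_zero 2 hσ)
  rw [mul_div_assoc', eq_div_iff hD2]
  linarith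

private lemma hamg_dense : Dense {t : ℝ | Real.sin t ≠ 0} := by
  have h : {t : ℝ | Real.sin t ≠ 0} = (range fun n : ℤ => (n : ℝ) * Real.pi)ᶜ := by
    ext t
    rw [mem_ofPred_eq, mem_compl_iff, mem_range, ne_eq, Real.sin_eq_zero_iff]
  rw [h]
  exact (countable_range _).dense_compl ℝ

theorem exists_G (h : ArcIso β b) (hc : ArcLift b c) : ∃ G : ℝ × ℝ → ℝ, ContDiff ℝ ∞ G ∧
    ∀ s t, HasDerivAt (fun t => G (s, Real.cos t))
      ((d1 c (s, t)).re * (d2 c (s, t)).im - (d1 c (s, t)).im * (d2 c (s, t)).re) t := by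
  obtain ⟨D, hD, hDe, hD0, -⟩ := exists_D h
  obtain ⟨m, hm, hme⟩ := exists_div2 (hamg_smooth1 h.smooth)
    (fun s => hamg_const h.smooth (fun s => (h.arc s).one) s)
    (fun s => hamg_const h.smooth (fun s => (h.arc s).mone) s)
  have hb2 := hamg_smooth2 h.smooth
  obtain ⟨g, hgdef⟩ : ∃ g : ℝ × ℝ → ℝ, g = fun p => (conj (m p) * d2 b p).im / ‖D p‖ := ⟨_, rfl⟩
  have hO : IsOpen {p : ℝ × ℝ | D p ≠ 0} := isOpen_ne_fun hD.continuous continuous_const
  have hT : IsClosed {p : ℝ × ℝ | p.2 ∈ Icc (-1 : ℝ) 1} := isClosed_Icc.preimage continuous_snd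
  have hTO : {p : ℝ × ℝ | p.2 ∈ Icc (-1 : ℝ) 1} ⊆ {p : ℝ × ℝ | D p ≠ 0} :=
    fun p hp => hD0 p.1 p.2 hp
  have hg : ContDiffOn ℝ ∞ g {p : ℝ × ℝ | D p ≠ 0} := by
    rw [hgdef]
    have h1 : ContDiff ℝ ∞ fun p => (conj (m p) * d2 b p).im :=
      Complex.imCLM.contDiff.comp ((Complex.conjCLE.contDiff.comp hm).mul hb2)
    have h2 : ContDiffOn ℝ ∞ (fun p => ‖D p‖) {p : ℝ × ℝ | D p ≠ 0} :=
      hD.contDiffOn.norm ℝ fun p hp => hp
    exact h1.contDiffOn.div h2 fun p hp => norm_ne_zero_iff.2 hp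
  obtain ⟨g', hg', hgg⟩ := Pool.Agent.H2.TI.exists_ext (X := ℝ × ℝ) hT hO hTO hg
  refine ⟨fun p => ∫ y in (0 : ℝ)..p.2, g' (p.1, y), contDiff_prim hg', fun s t => ?_⟩
  have hcont : Continuous fun y : ℝ => g' (s, y) :=
    hg'.continuous.comp (continuous_const.prodMk continuous_id)
  have h1 : HasDerivAt (fun x : ℝ => ∫ y in (0 : ℝ)..x, g' (s, y)) (g' (s, Real.cos t))
      (Real.cos t) :=
    intervalIntegral.integral_hasDerivAt_right (hcont.intervalIntegrable _ _)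
      (hcont.stronglyMeasurableAtFilter _ _) hcont.continuousAt
  have h2 := h1.comp t (Real.hasDerivAt_cos t)
  have hc1 := (hamg_smooth1 hc.smooth).continuous
  have hc2 := (hamg_smooth2 hc.smooth).continuous
  have hi : Continuous fun t : ℝ => (s, t) := continuous_const.prodMk continuous_id
  have key : (fun t => (d1 c (s, t)).re * (d2 c (s, t)).im - (d1 c (s, t)).im * (d2 c (s, t)).re) =
      fun t => g' (s, Real.cos t) * -Real.sin t := by
    refine Continuous.ext_on hamg_dense ?_ ?_ ?_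
    · exact ((Complex.continuous_re.comp (hc1.comp hi)).mul (Complex.continuous_im.comp (hc2.comp hi))).sub
        ((Complex.continuous_im.comp (hc1.comp hi)).mul (Complex.continuous_re.comp (hc2.comp hi)))
    · exact (hcont.comp Real.continuous_cos).mul Real.continuous_sin.neg
    · intro t ht
      obtain ⟨r1, r2, r3⟩ := lift_rel h hc s t
      have hx : Real.cos t ∈ Icc (-1 : ℝ) 1 := ⟨Real.neg_one_le_cos t, Real.cos_le_one t⟩
      have hs2 : 1 - Real.cos t ^ 2 = Real.sin t ^ 2 := by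
        have := Real.sin_sq_add_cos_sq t
        linarith
      have e := hamg_alg (m := m (s, Real.cos t)) (D := D (s, Real.cos t)) ht (hD0 s _ hx) r1
        (by rw [r2, hme, hs2]) (by rw [r3, hDe, hs2])
      show (d1 c (s, t)).re * (d2 c (s, t)).im - (d1 c (s, t)).im * (d2 c (s, t)).re =
        g' (s, Real.cos t) * -Real.sin t
      rw [e, hgg _ hx, hgdef]
      ring
  have e := congrFun key t
  rw [e]
  exact h2

end Pool.Agent.H86.PL
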