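import Pool.Agent.H86.PL.Defs
import Pool.Agent.H86.PL.Par

/-!
# Module Iso: the isotopy of arcs

PROOF. `exists_div` (function `(s, y) ↦ 1 - β (1 - y)`, `a = 0`; then take `s = 0`): `1 - β (1 - y) = y Δ(y)`, `Δ : ℝ → ℂ` smooth. `Δ(0) = deriv β 1 ≠ 0` (derivatives at `y = 0`); `Δ(y) ≠ 0` for `0 < y ≤ 2` (`β 1 ≠ β (1 - y)`); `Δ(2) = 1`. `ζ = Real.smoothTransition`. Put
`b (s, x) = 1 - (1 - x) Δ(ζ(s) (1 - x)) / Δ(2 ζ(s))`, smooth on `ℝ × ℝ` (`0 ≤ 2 ζ ≤ 2`). `ζ(0) = 0`: `b (0, x) = x`. `ζ(1) = 1`: `b (1, x) = 1 - (1 - x) Δ(1 - x) = β x`. Arc for fixed `s`: if `ζ = ζ(s) = 0`, `b (s, x) = x`. If `0 < ζ ≤ 1`: `b (s, x) = 1 - (1 - β (1 - ζ (1 - x))) / (ζ Δ(2ζ))` for ALL real `x`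
(`ζ (1 - x) Δ(ζ (1 - x)) = 1 - β (1 - ζ (1 - x))`), `1 - ζ (1 - x) ∈ [-1, 1]` for `x ∈ [-1, 1]`, so `inj` and `imm` (derivative `deriv β (1 - ζ (1 - x)) / Δ(2ζ)`) follow from those of `β`; `x = 1`: `1`; `x = -1`: `1 - β (1 - 2ζ) = 2ζ Δ(2ζ)`, so `b = 1 - 2 = -1`.
-/

set_option autoImplicit false

open scoped ContDiff Topology
open Set Filter

namespace Pool.Agent.H86.PL

private lemma Iso_delta {β : ℝ → ℂ} (h : Arc β) : ∃ Δ : ℝ → ℂ, ContDiff ℝ ∞ Δ ∧
    (∀ y : ℝ, 1 - β (1 - y) = (y : ℂ) * Δ y) ∧ (∀ y ∈ Icc (0 : ℝ) 2, Δ y ≠ 0) ∧ Δ 2 = 1 := by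
  have hf : ContDiff ℝ ∞ fun p : ℝ × ℝ => 1 - β (1 - p.2) :=
    contDiff_const.sub (h.smooth.comp (contDiff_const.sub contDiff_snd))
  obtain ⟨g, hg, hg2⟩ := exists_div hf 0 (fun s => by simp [h.one])
  have hm : ∀ y : ℝ, 1 - β (1 - y) = (y : ℂ) * g (0, y) := by
    intro y
    have h1 := hg2 0 y
    simp only [sub_zero] at h1
    rw [h1, Complex.real_smul]
  have hgs : ContDiff ℝ ∞ fun y : ℝ => g (0, y) := hg.comp (contDiff_const.prodMk contDiff_id)
  refine ⟨fun y => g (0, y), hgs, hm, ?_, ?_⟩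
  · intro y hy h0
    rcases hy.1.eq_or_lt with h1 | h1
    · subst h1
      have a : HasDerivAt β (deriv β 1) ((fun y : ℝ => 1 - y) 0) := by
        have := (h.smooth.differentiable (by simp) 1).hasDerivAt
        simpa using this
      have b : HasDerivAt (fun y : ℝ => 1 - y) (-1) 0 := by
        simpa using (hasDerivAt_id (0 : ℝ)).const_sub 1
      have c := (a.scomp (0 : ℝ) b).const_sub (1 : ℂ)
      have d : HasDerivAt (fun y : ℝ => (y : ℂ) * g (0, y))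
          (1 * g (0, 0) + ((0 : ℝ) : ℂ) * deriv (fun y : ℝ => g (0, y)) 0) 0 := by
        have e1 : HasDerivAt (fun y : ℝ => (y : ℂ)) 1 0 := Complex.ofRealCLM.hasDerivAt
        exact e1.mul (hgs.differentiable (by simp) 0).hasDerivAt
      have e : (fun y : ℝ => (y : ℂ) * g (0, y)) = fun y : ℝ => 1 - (β ∘ fun y : ℝ => 1 - y) y := by
        funext y
        exact (hm y).symm
      rw [e] at d
      have f := d.unique c
      simp only at h0
      rw [h0] at f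
      simp only [Complex.ofReal_zero, zero_mul, mul_zero, add_zero, neg_smul, one_smul,
        neg_neg] at f
      exact h.imm 1 (by norm_num) f.symm
    · have h2 := hm y
      simp only at h0
      rw [h0, mul_zero] at h2
      have h3 := h.inj 1 (by norm_num) (1 - y) ⟨by linarith [hy.2], by linarith⟩ (by
        rw [h.one]
        exact sub_eq_zero.1 h2)
      linarith
  · have h2 := hm 2
    rw [show (1 : ℝ) - 2 = -1 by norm_num, h.mone] at h2
    have h3 : ((2 : ℝ) : ℂ) * (g (0, 2) - 1) = 0 := by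
      rw [mul_sub, ← h2]
      norm_num
    have h4 := (mul_eq_zero.1 h3).resolve_left (by norm_num)
    exact sub_eq_zero.1 h4

/-- the arc at the parameter `z = ζ(s)` -/
private noncomputable def Iso_b (Δ : ℝ → ℂ) (z : ℝ) (x : ℝ) : ℂ :=
  1 - ((1 - x : ℝ) : ℂ) * Δ (z * (1 - x)) * (Δ (2 * z))⁻¹

private lemma Iso_zero {Δ : ℝ → ℂ} (h2 : ∀ y ∈ Icc (0 : ℝ) 2, Δ y ≠ 0) (x : ℝ) :
    Iso_b Δ 0 x = x := by
  have h0 := h2 0 (by norm_num)
  unfold Iso_b
  rw [zero_mul, mul_zero, mul_assoc, mul_inv_cancel₀ h0, mul_one]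
  push_cast
  ring

private lemma Iso_pos {β Δ : ℝ → ℂ} (h1 : ∀ y : ℝ, 1 - β (1 - y) = (y : ℂ) * Δ y)
    {z : ℝ} (hz : 0 < z) (x : ℝ) :
    Iso_b Δ z x = 1 - (1 - β (1 - z * (1 - x))) * ((z : ℂ) * Δ (2 * z))⁻¹ := by
  have hz' : (z : ℂ) ≠ 0 := by exact_mod_cast hz.ne'
  unfold Iso_b
  rw [h1, mul_inv]
  push_cast
  field_simp

private lemma Iso_arc {β Δ : ℝ → ℂ} (h : Arc β) (hs : ContDiff ℝ ∞ Δ)
    (h1 : ∀ y : ℝ, 1 - β (1 - y) = (y : ℂ) * Δ y) (h2 : ∀ y ∈ Icc (0 : ℝ) 2, Δ y ≠ 0)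
    {z : ℝ} (hz0 : 0 ≤ z) (hz1 : z ≤ 1) : Arc (Iso_b Δ z) := by
  have hn : Δ (2 * z) ≠ 0 := h2 _ ⟨by linarith, by linarith⟩
  refine ⟨?_, ?_, ?_, ?_, ?_⟩
  · unfold Iso_b
    refine contDiff_const.sub (ContDiff.mul (ContDiff.mul ?_ ?_) contDiff_const)
    · exact Complex.ofRealCLM.contDiff.comp (contDiff_const.sub contDiff_id)
    · exact hs.comp (contDiff_const.mul (contDiff_const.sub contDiff_id))
  · unfold Iso_b
    simp
  · unfold Iso_b
    rw [show z * (1 - -1) = 2 * z by ring, mul_assoc, mul_inv_cancel₀ hn]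
    norm_num
  · intro x hx y hy hxy
    rcases hz0.eq_or_lt with h3 | h3
    · subst h3
      rw [Iso_zero h2, Iso_zero h2] at hxy
      exact_mod_cast hxy
    · rw [Iso_pos h1 h3, Iso_pos h1 h3] at hxy
      have hz' : (z : ℂ) ≠ 0 := by exact_mod_cast h3.ne'
      have h4 := mul_right_cancel₀ (inv_ne_zero (mul_ne_zero hz' hn)) (sub_right_inj.1 hxy)
      have h5 := h.inj (1 - z * (1 - x)) ⟨by nlinarith [hx.1, hx.2], by nlinarith [hx.1, hx.2]⟩
        (1 - z * (1 - y)) ⟨by nlinarith [hy.1, hy.2], by nlinarith [hy.1, hy.2]⟩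
        (sub_right_inj.1 h4)
      have h6 : z * (x - y) = 0 := by linarith
      have h7 := (mul_eq_zero.1 h6).resolve_left h3.ne'
      linarith
  · intro x hx
    rcases hz0.eq_or_lt with h3 | h3
    · subst h3
      have e : Iso_b Δ 0 = fun x : ℝ => (x : ℂ) := funext fun x => Iso_zero h2 x
      rw [e]
      have e1 : HasDerivAt (fun y : ℝ => (y : ℂ)) 1 x := Complex.ofRealCLM.hasDerivAt
      rw [e1.deriv]
      exact one_ne_zero
    · have e : Iso_b Δ z = fun x : ℝ =>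
          1 - (1 - (β ∘ fun x : ℝ => 1 - z * (1 - x)) x) * ((z : ℂ) * Δ (2 * z))⁻¹ :=
        funext fun x => Iso_pos h1 h3 x
      have a : HasDerivAt β (deriv β (1 - z * (1 - x))) ((fun x : ℝ => 1 - z * (1 - x)) x) :=
        (h.smooth.differentiable (by simp) _).hasDerivAt
      have b : HasDerivAt (fun x : ℝ => 1 - z * (1 - x)) z x := by
        have := (((hasDerivAt_id x).const_sub 1).const_mul z).const_sub 1
        simpa using this
      have c := (((a.scomp x b).const_sub (1 : ℂ)).mul_const ((z : ℂ) * Δ (2 * z))⁻¹).const_sub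
        (1 : ℂ)
      rw [e, c.deriv]
      have hz' : (z : ℂ) ≠ 0 := by exact_mod_cast h3.ne'
      have h4 := h.imm (1 - z * (1 - x)) ⟨by nlinarith [hx.1, hx.2], by nlinarith [hx.1, hx.2]⟩
      rw [neg_mul, neg_neg, Complex.real_smul]
      exact mul_ne_zero (mul_ne_zero hz' h4) (inv_ne_zero (mul_ne_zero hz' hn))

theorem exists_iso {β : ℝ → ℂ} (h : Arc β) : ∃ b : ℝ × ℝ → ℂ, ArcIso β b := by
  obtain ⟨Δ, hs, h1, h2, h3⟩ := Iso_delta h
  have hζ0 : ∀ s, 0 ≤ Real.smoothTransition s := Real.smoothTransition.nonneg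
  have hζ1 : ∀ s, Real.smoothTransition s ≤ 1 := Real.smoothTransition.le_one
  refine ⟨fun p => Iso_b Δ (Real.smoothTransition p.1) p.2, ?_, fun s => ?_, fun x => ?_,
    fun x => ?_⟩
  · have hζ : ContDiff ℝ ∞ fun p : ℝ × ℝ => Real.smoothTransition p.1 :=
      Real.smoothTransition.contDiff.comp contDiff_fst
    unfold Iso_b
    refine contDiff_const.sub (ContDiff.mul (ContDiff.mul ?_ ?_) (ContDiff.inv ?_ fun p => ?_))
    · exact Complex.ofRealCLM.contDiff.comp (contDiff_const.sub contDiff_snd)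
    · exact hs.comp (hζ.mul (contDiff_const.sub contDiff_snd))
    · exact hs.comp (contDiff_const.mul hζ)
    · exact h2 _ ⟨by linarith [hζ0 p.1], by linarith [hζ1 p.1]⟩
  · exact Iso_arc h hs h1 h2 (hζ0 s) (hζ1 s)
  · simp only [Real.smoothTransition.zero]
    exact Iso_zero h2 x
  · simp only [Real.smoothTransition.one]
    rw [Iso_pos h1 one_pos, show (1 : ℝ) - 1 * (1 - x) = x by ring, mul_one, h3]
    simp

end Pool.Agent.H86.PL
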