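import Mathlib

/-!
# Module CS: `cosh √v` and `sinh √v / √v` are smooth on the whole line

PROOF. `C v = ∑ vⁿ/(2n)!`, `S v = ∑ vⁿ/(2n+1)!`: power series with infinite radius of convergence (`FormalMultilinearSeries.ofScalars`, `ofScalars_radius_eq_top_of_tendsto`, `FormalMultilinearSeries.hasFPowerSeriesOnBall`, `HasFPowerSeriesOnBall.analyticOnNhd`, `AnalyticOnNhd.contDiff`…; or `contDiff_tsum`). `Real.hasSum_cosh`,
`Real.hasSum_sinh` at `r`: `r ^ (2n) = (r ^ 2) ^ n`, `r ^ (2n+1) = r * (r ^ 2) ^ n`.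
-/

set_option autoImplicit false

open scoped ContDiff Topology
open Set Filter

namespace Pool.Agent.H86.PL

private theorem CS_tendsto (a : ℕ) :
    Tendsto (fun n : ℕ => ‖(((2 * (n.succ) + a).factorial : ℝ))⁻¹‖ / ‖(((2 * n + a).factorial : ℝ))⁻¹‖)
      atTop (𝓝 0) := by
  have h1 : Tendsto (fun n : ℕ => (1 : ℝ) / ((n : ℝ) + 1)) atTop (𝓝 0) :=
    tendsto_one_div_add_atTop_nhds_zero_nat
  refine squeeze_zero (fun n => by positivity) (fun n => ?_) h1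
  have e : (2 * n.succ + a).factorial = (2 * n + a + 2) * ((2 * n + a + 1) * (2 * n + a).factorial) := by
    have : 2 * n.succ + a = 2 * n + a + 1 + 1 := by rw [Nat.succ_eq_add_one]; ring
    rw [this, Nat.factorial_succ, Nat.factorial_succ]
  have hf : (0 : ℝ) < ((2 * n + a).factorial : ℝ) := by exact_mod_cast Nat.factorial_pos _
  have hn : (0 : ℝ) ≤ n := Nat.cast_nonneg n
  have ha : (0 : ℝ) ≤ a := Nat.cast_nonneg a
  rw [norm_inv, norm_inv, Real.norm_of_nonneg (Nat.cast_nonneg _), Real.norm_of_nonneg hf.le, e]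
  push_cast
  rw [div_le_div_iff₀ (by positivity) (by positivity)]
  rw [one_mul]
  have hf' : (((2 * n + a).factorial : ℝ))⁻¹ = ((2 * n + a).factorial : ℝ)⁻¹ := rfl
  have e2 : ((2 * (n : ℝ) + a + 2) * ((2 * n + a + 1) * ((2 * n + a).factorial : ℝ)))⁻¹ =
      ((2 * (n : ℝ) + a + 2) * (2 * n + a + 1))⁻¹ * ((2 * n + a).factorial : ℝ)⁻¹ := by
    rw [← mul_assoc, mul_inv]
  rw [e2]
  have h3 : ((2 * (n : ℝ) + a + 2) * (2 * n + a + 1))⁻¹ * ((n : ℝ) + 1) ≤ 1 := by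
    rw [inv_mul_le_iff₀ (by positivity)]
    nlinarith [mul_nonneg hn ha, mul_nonneg hn hn, mul_nonneg ha ha]
  have h4 : (0 : ℝ) ≤ ((2 * n + a).factorial : ℝ)⁻¹ := by positivity
  calc ((2 * (n : ℝ) + a + 2) * (2 * n + a + 1))⁻¹ * ((2 * n + a).factorial : ℝ)⁻¹ * ((n : ℝ) + 1)
      = (((2 * (n : ℝ) + a + 2) * (2 * n + a + 1))⁻¹ * ((n : ℝ) + 1)) *
        ((2 * n + a).factorial : ℝ)⁻¹ := by ring
    _ ≤ 1 * ((2 * n + a).factorial : ℝ)⁻¹ := mul_le_mul_of_nonneg_right h3 h4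
    _ = _ := one_mul _

private theorem CS_main (a : ℕ) : ∃ C : ℝ → ℝ, ContDiff ℝ ∞ C ∧
    ∀ x, C x = ∑' n : ℕ, (((2 * n + a).factorial : ℝ))⁻¹ * x ^ n := by
  set c : ℕ → ℝ := fun n => (((2 * n + a).factorial : ℝ))⁻¹ with hc
  have hr : (FormalMultilinearSeries.ofScalars ℝ c).radius = ⊤ :=
    FormalMultilinearSeries.ofScalars_radius_eq_top_of_tendsto ℝ c
      (Eventually.of_forall fun n => inv_ne_zero (by exact_mod_cast (Nat.factorial_pos _).ne'))
      (CS_tendsto a)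
  have hp := (FormalMultilinearSeries.ofScalars ℝ c).hasFPowerSeriesOnBall (by rw [hr]; simp)
  rw [hr] at hp
  have han := hp.analyticOnNhd
  refine ⟨(FormalMultilinearSeries.ofScalars ℝ c).sum, ?_, fun x => ?_⟩
  · refine AnalyticOnNhd.contDiff ?_
    simpa using han
  · have h := FormalMultilinearSeries.ofScalars_sum_eq (𝕜 := ℝ) (E := ℝ) c x
    unfold FormalMultilinearSeries.ofScalarsSum at h
    rw [h]
    rfl

theorem exists_CS : ∃ C S : ℝ → ℝ, ContDiff ℝ ∞ C ∧ ContDiff ℝ ∞ S ∧ (∀ r, C (r ^ 2) = Real.cosh r) ∧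
    ∀ r, r * S (r ^ 2) = Real.sinh r := by
  obtain ⟨C, hC, hC'⟩ := CS_main 0
  obtain ⟨S, hS, hS'⟩ := CS_main 1
  refine ⟨C, S, hC, hS, fun r => ?_, fun r => ?_⟩
  · rw [hC', ← (Real.hasSum_cosh r).tsum_eq]
    congr 1
    funext n
    rw [← pow_mul, add_zero, inv_mul_eq_div]
  · rw [hS', ← (Real.hasSum_sinh r).tsum_eq, ← tsum_mul_left]
    congr 1
    funext n
    rw [← pow_mul, inv_mul_eq_div, pow_succ]
    ring

end Pool.Agent.H86.PL
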