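import Pool.Agent.H86.PL.Defs
import Pool.Agent.H86.PL.CS

/-!
# Module KK: the Hamiltonian as a function of `(cos θ, -ρ sin θ, ρ²)`

PROOF. `C`, `S` from `exists_CS`; `χ₁ = 1` on `[-1, 1]`, `0` for `|s| ≥ 2`; `χ₂ = 1` on `(-∞, A]`, `0` on `[A + 1, ∞)`, `A = (|R| + 1) ^ 2` (smooth; `Real.smoothTransition`, for example `χ₁ s = smoothTransition (2 - s) * smoothTransition (2 + s)`, `χ₂ v = smoothTransition (A + 1 - v)`).
`K s (a, b, c) = χ₁ s * χ₂ c * k (s, ⟨a * C c, b * S c⟩)`. `hP K s z = χ₁ s * χ₂ (z.im ^ 2) * k (s, ⟨cos z.re * cosh z.im, -(sin z.re * sinh z.im)⟩)`, and the complex number is `Complex.cos z` (`Complex.cos_eq` or real and imaginary parts of `Complex.cos`); for `z'` near `z` with `|z.im| ≤ R` we have `z'.im ^ 2 ≤ A`.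
-/

set_option autoImplicit false

open scoped ContDiff Topology
open Set Filter

namespace Pool.Agent.H86.PL

open Pool.Agent.H73.CO

private theorem kk_cos (z : ℂ) : Complex.cos z =
    Complex.equivRealProdCLM.symm (Real.cos z.re * Real.cosh z.im,
      -(Real.sin z.re * Real.sinh z.im)) := by
  rw [Complex.cos_eq, ← Complex.ofReal_cos, ← Complex.ofReal_sin, ← Complex.ofReal_cosh,
    ← Complex.ofReal_sinh]
  apply Complex.ext
  · simp [-Complex.ofReal_cos, -Complex.ofReal_sin, -Complex.ofReal_cosh, -Complex.ofReal_sinh]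
  · simp [-Complex.ofReal_cos, -Complex.ofReal_sin, -Complex.ofReal_cosh, -Complex.ofReal_sinh]

theorem exists_K {k : ℝ × ℂ → ℝ} (hk : ContDiff ℝ ∞ k) (R : ℝ) : ∃ K : ℝ → ℝ × ℝ × ℝ → ℝ,
    (ContDiff ℝ ∞ fun x : ℝ × (ℝ × ℝ × ℝ) => K x.1 x.2) ∧ (∀ s x, 2 ≤ |s| → K s x = 0) ∧
      (∃ R' : ℝ, ∀ s x, R' ≤ x.2.2 → K s x = 0) ∧
      ∀ s, |s| ≤ 1 → ∀ z : ℂ, |z.im| ≤ R → XP K s z = XK k s z := by
  obtain ⟨C, S, hC, hS, hCc, hSs⟩ := exists_CS
  refine ⟨fun s x => Real.smoothTransition (2 - s) * Real.smoothTransition (2 + s) *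
    Real.smoothTransition ((|R| + 1) ^ 2 + 1 - x.2.2) *
      k (s, Complex.equivRealProdCLM.symm (x.1 * C x.2.2, x.2.1 * S x.2.2)), ?_, ?_, ?_, ?_⟩
  · have h1 : ContDiff ℝ ∞ fun x : ℝ × (ℝ × ℝ × ℝ) => Real.smoothTransition (2 - x.1) :=
      Real.smoothTransition.contDiff.comp (contDiff_const.sub contDiff_fst)
    have h2 : ContDiff ℝ ∞ fun x : ℝ × (ℝ × ℝ × ℝ) => Real.smoothTransition (2 + x.1) :=
      Real.smoothTransition.contDiff.comp (contDiff_const.add contDiff_fst)
    have e3 : ContDiff ℝ ∞ fun x : ℝ × (ℝ × ℝ × ℝ) => x.2.2.2 :=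
      contDiff_snd.comp (contDiff_snd.comp contDiff_snd)
    have e2 : ContDiff ℝ ∞ fun x : ℝ × (ℝ × ℝ × ℝ) => x.2.2.1 :=
      contDiff_fst.comp (contDiff_snd.comp contDiff_snd)
    have e1 : ContDiff ℝ ∞ fun x : ℝ × (ℝ × ℝ × ℝ) => x.2.1 := contDiff_fst.comp contDiff_snd
    have h3 : ContDiff ℝ ∞ fun x : ℝ × (ℝ × ℝ × ℝ) =>
        Real.smoothTransition ((|R| + 1) ^ 2 + 1 - x.2.2.2) :=
      Real.smoothTransition.contDiff.comp (contDiff_const.sub e3)
    have h4 : ContDiff ℝ ∞ fun x : ℝ × (ℝ × ℝ × ℝ) =>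
        Complex.equivRealProdCLM.symm (x.2.1 * C x.2.2.2, x.2.2.1 * S x.2.2.2) :=
      Complex.equivRealProdCLM.symm.contDiff.comp
        ((e1.mul (hC.comp e3)).prodMk (e2.mul (hS.comp e3)))
    exact ((h1.mul h2).mul h3).mul (hk.comp (contDiff_fst.prodMk h4))
  · intro s x hs
    have h1 : Real.smoothTransition (2 - s) * Real.smoothTransition (2 + s) = 0 := by
      rcases le_abs.1 hs with h | h
      · rw [Real.smoothTransition.zero_of_nonpos (by linarith), zero_mul]
      · rw [Real.smoothTransition.zero_of_nonpos (x := 2 + s) (by linarith), mul_zero]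
    show _ * _ * _ = _
    rw [h1, zero_mul, zero_mul]
  · refine ⟨(|R| + 1) ^ 2 + 1, fun s x hx => ?_⟩
    show _ * _ * _ = _
    rw [Real.smoothTransition.zero_of_nonpos (x := (|R| + 1) ^ 2 + 1 - x.2.2) (by linarith),
      mul_zero, zero_mul]
  · intro s hs z hz
    have hs' := abs_le.1 hs
    have key : hP (fun s x => Real.smoothTransition (2 - s) * Real.smoothTransition (2 + s) *
        Real.smoothTransition ((|R| + 1) ^ 2 + 1 - x.2.2) *
          k (s, Complex.equivRealProdCLM.symm (x.1 * C x.2.2, x.2.1 * S x.2.2))) s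
        =ᶠ[𝓝 z] HK k s := by
      have h1 : ∀ᶠ w : ℂ in 𝓝 z, |w.im| < |R| + 1 := by
        have hc : Continuous fun w : ℂ => |w.im| := Complex.continuous_im.abs
        have := le_abs_self R
        exact hc.continuousAt.eventually_lt continuousAt_const (by linarith)
      filter_upwards [h1] with w hw
      have h2 : w.im ^ 2 ≤ (|R| + 1) ^ 2 := by
        rw [← sq_abs w.im]
        exact pow_le_pow_left₀ (abs_nonneg _) hw.le 2
      have h3 : Real.smoothTransition ((|R| + 1) ^ 2 + 1 - w.im ^ 2) = 1 :=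
        Real.smoothTransition.one_of_one_le (by linarith)
      have h4 : Real.smoothTransition (2 - s) = 1 :=
        Real.smoothTransition.one_of_one_le (by linarith)
      have h5 : Real.smoothTransition (2 + s) = 1 :=
        Real.smoothTransition.one_of_one_le (by linarith)
      show Real.smoothTransition (2 - s) * Real.smoothTransition (2 + s) *
        Real.smoothTransition ((|R| + 1) ^ 2 + 1 - w.im ^ 2) *
          k (s, Complex.equivRealProdCLM.symm (Real.cos w.re * C (w.im ^ 2),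
            -(w.im * Real.sin w.re) * S (w.im ^ 2))) = k (s, Complex.cos w)
      rw [h3, h4, h5, one_mul, one_mul, one_mul, kk_cos w, hCc]
      have h6 : -(w.im * Real.sin w.re) * S (w.im ^ 2) = -(Real.sin w.re * Real.sinh w.im) := by
        rw [← hSs w.im]
        ring
      rw [h6]
    unfold XP XK
    rw [key.fderiv_eq]

end Pool.Agent.H86.PL
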