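import Pool.Agent.H86.PL.LiftB

/-!
# Module Mu: the Hamiltonian field along the curves

PROOF. `k (s, cos (c (s, t))) = k (s, b (s, cos t)) = G (s, cos t)`. Derivative in `t` (`s` fixed): with `X = XK k s (c (s, t))`, `v = d2 c (s, t)`: `fderiv ℝ (HK k s) (c (s, t)) v = v.re * fderiv (…) 1 + v.im * fderiv (…) I = X.re * v.im - X.im * v.re`, so by `hG2` `(X.re - (d1 c).re) * v.im - (X.im - (d1 c).im) * v.re = 0`. As `v ≠ 0` (`lift_imm`):
`X - d1 c = μ • v`, `μ (s, t) = ((X - d1 c) * conj v).re / ‖v‖²` (`Complex.normSq`). Smooth: `(s, z) ↦ XK k s z` is smooth: `HK k s z = k (s, cos z)`, `fderiv ℝ (HK k s) z w = fderiv ℝ (fun p : ℝ × ℂ => k (p.1, Complex.cos p.2)) (s, z) (0, w)`. Periodic: `HK k s (z + 2π) = HK k s z`, so the derivatives agree, and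
`d1 c`, `d2 c` are `2π`-periodic in `t` (`hc.per`).
-/

set_option autoImplicit false

open scoped ContDiff Topology
open Set Filter

namespace Pool.Agent.H86.PL

variable {β : ℝ → ℂ} {b c : ℝ × ℝ → ℂ}

private noncomputable def Mu_KC (k : ℝ × ℂ → ℝ) (p : ℝ × ℂ) : ℝ := k (p.1, Complex.cos p.2)

private lemma Mu_KC_smooth {k : ℝ × ℂ → ℝ} (hk : ContDiff ℝ ∞ k) : ContDiff ℝ ∞ (Mu_KC k) := by
  unfold Mu_KC
  have h1 : ContDiff ℝ ∞ Complex.cos := Complex.contDiff_cos.restrict_scalars ℝ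
  exact hk.comp (contDiff_fst.prodMk (h1.comp contDiff_snd))

private lemma Mu_fd {k : ℝ × ℂ → ℝ} (hk : ContDiff ℝ ∞ k) (s : ℝ) (z w : ℂ) :
    fderiv ℝ (HK k s) z w = fderiv ℝ (Mu_KC k) (s, z) (0, w) := by
  have h1 : HasFDerivAt (Mu_KC k) (fderiv ℝ (Mu_KC k) (s, z)) (s, z) :=
    ((Mu_KC_smooth hk).differentiable (by simp)).differentiableAt.hasFDerivAt
  have h2 : HasFDerivAt (fun z : ℂ => (s, z)) (ContinuousLinearMap.inr ℝ ℝ ℂ) z :=
    hasFDerivAt_prodMk_right s z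
  have h3 : HasFDerivAt (HK k s) ((fderiv ℝ (Mu_KC k) (s, z)).comp
      (ContinuousLinearMap.inr ℝ ℝ ℂ)) z := h1.comp z h2
  rw [h3.fderiv]
  rfl

private lemma Mu_hd {c : ℝ × ℝ → ℂ} (hc : ContDiff ℝ ∞ c) (s t : ℝ) :
    HasDerivAt (fun t => c (s, t)) (d2 c (s, t)) t := by
  have h1 : HasFDerivAt c (fderiv ℝ c (s, t)) (s, t) :=
    (hc.differentiable (by simp)).differentiableAt.hasFDerivAt
  have h2 : HasDerivAt (fun t : ℝ => (s, t)) ((0 : ℝ), (1 : ℝ)) t :=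
    (hasDerivAt_const t s).prodMk (hasDerivAt_id t)
  exact h1.comp_hasDerivAt t h2

private lemma Mu_per {c : ℝ × ℝ → ℂ} (hper : ∀ s t, c (s, t + 2 * Real.pi) =
    c (s, t) + ((2 * Real.pi : ℝ) : ℂ)) (s t : ℝ) :
    fderiv ℝ c (s, t + 2 * Real.pi) = fderiv ℝ c (s, t) := by
  have h1 : (fun p : ℝ × ℝ => c (p + (0, 2 * Real.pi))) =
      fun p => c p + ((2 * Real.pi : ℝ) : ℂ) := by
    funext p
    obtain ⟨x, y⟩ := p
    rw [Prod.mk_add_mk, add_zero]
    exact hper x y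
  have h2 := fderiv_comp_add_right (𝕜 := ℝ) (f := c) (x := (s, t)) ((0 : ℝ), 2 * Real.pi)
  rw [h1, fderiv_add_const, Prod.mk_add_mk, add_zero] at h2
  exact h2.symm

private lemma Mu_perK {k : ℝ × ℂ → ℝ} (s : ℝ) (z : ℂ) :
    fderiv ℝ (HK k s) (z + ((2 * Real.pi : ℝ) : ℂ)) = fderiv ℝ (HK k s) z := by
  have h1 : (fun z : ℂ => HK k s (z + ((2 * Real.pi : ℝ) : ℂ))) = HK k s := by
    funext z
    unfold HK
    congr 2
    push_cast
    exact Complex.cos_add_two_pi z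
  have h2 := fderiv_comp_add_right (𝕜 := ℝ) (f := HK k s) (x := z) ((2 * Real.pi : ℝ) : ℂ)
  rw [h1] at h2
  exact h2.symm

theorem exists_mu (h : ArcIso β b) (hc : ArcLift b c) {G : ℝ × ℝ → ℝ} {k : ℝ × ℂ → ℝ}
    (hk : ContDiff ℝ ∞ k) (hkG : ∀ s, ∀ x ∈ Icc (-1 : ℝ) 1, k (s, b (s, x)) = G (s, x))
    (hG2 : ∀ s t, HasDerivAt (fun t => G (s, Real.cos t))
      ((d1 c (s, t)).re * (d2 c (s, t)).im - (d1 c (s, t)).im * (d2 c (s, t)).re) t) :
    ∃ μ : ℝ × ℝ → ℝ, ContDiff ℝ ∞ μ ∧ (∀ s t, μ (s, t + 2 * Real.pi) = μ (s, t)) ∧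
      ∀ s t, XK k s (c (s, t)) = d1 c (s, t) + μ (s, t) • d2 c (s, t) := by
  have cs := hc.smooth
  have hKC := Mu_KC_smooth hk
  have s1 : ContDiff ℝ ∞ (d1 c) := by
    unfold d1
    exact (cs.fderiv_right (m := ∞) (by simp)).clm_apply contDiff_const
  have s2 : ContDiff ℝ ∞ (d2 c) := by
    unfold d2
    exact (cs.fderiv_right (m := ∞) (by simp)).clm_apply contDiff_const
  have sc : ContDiff ℝ ∞ (fun p : ℝ × ℝ => (p.1, c p)) := contDiff_fst.prodMk cs
  have sA : ∀ w : ℂ, ContDiff ℝ ∞ (fun p : ℝ × ℝ => fderiv ℝ (HK k p.1) (c p) w) := by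
    intro w
    have h1 : (fun p : ℝ × ℝ => fderiv ℝ (HK k p.1) (c p) w) =
        fun p : ℝ × ℝ => fderiv ℝ (Mu_KC k) (p.1, c p) (0, w) := by
      funext p
      exact Mu_fd hk p.1 (c p) w
    rw [h1]
    exact ((hKC.fderiv_right (m := ∞) (by simp)).comp sc).clm_apply contDiff_const
  have r1 : ContDiff ℝ ∞ (fun p => (d1 c p).re) := Complex.reCLM.contDiff.comp s1
  have i1 : ContDiff ℝ ∞ (fun p => (d1 c p).im) := Complex.imCLM.contDiff.comp s1
  have r2 : ContDiff ℝ ∞ (fun p => (d2 c p).re) := Complex.reCLM.contDiff.comp s2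
  have i2 : ContDiff ℝ ∞ (fun p => (d2 c p).im) := Complex.imCLM.contDiff.comp s2
  have hv : ∀ p : ℝ × ℝ, (d2 c p).re ^ 2 + (d2 c p).im ^ 2 ≠ 0 := by
    intro p hp
    obtain ⟨x, y⟩ := p
    refine lift_imm h hc x y ?_
    have a1 := sq_nonneg (d2 c (x, y)).re
    have a2 := sq_nonneg (d2 c (x, y)).im
    apply Complex.ext
    · have : (d2 c (x, y)).re ^ 2 = 0 := by linarith
      simpa using this
    · have : (d2 c (x, y)).im ^ 2 = 0 := by linarith
      simpa using this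
  refine ⟨fun p => ((fderiv ℝ (HK k p.1) (c p) Complex.I - (d1 c p).re) * (d2 c p).re +
    (-fderiv ℝ (HK k p.1) (c p) 1 - (d1 c p).im) * (d2 c p).im) /
      ((d2 c p).re ^ 2 + (d2 c p).im ^ 2), ?_, ?_, ?_⟩
  · exact ((((sA _).sub r1).mul r2).add (((sA _).neg.sub i1).mul i2)).div
      ((r2.pow 2).add (i2.pow 2)) hv
  · intro s t
    have e1 : d1 c (s, t + 2 * Real.pi) = d1 c (s, t) := by
      unfold d1
      rw [Mu_per hc.per]
    have e2 : d2 c (s, t + 2 * Real.pi) = d2 c (s, t) := by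
      unfold d2
      rw [Mu_per hc.per]
    simp only
    rw [e1, e2, hc.per, Mu_perK]
  · intro s t
    have e1 : HasDerivAt (fun t => Mu_KC k (s, c (s, t)))
        (fderiv ℝ (Mu_KC k) (s, c (s, t)) (0, d2 c (s, t))) t := by
      have h1 : HasFDerivAt (Mu_KC k) (fderiv ℝ (Mu_KC k) (s, c (s, t))) (s, c (s, t)) :=
        (hKC.differentiable (by simp)).differentiableAt.hasFDerivAt
      have h2 : HasDerivAt (fun t : ℝ => (s, c (s, t))) ((0 : ℝ), d2 c (s, t)) t :=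
        (hasDerivAt_const t s).prodMk (Mu_hd cs s t)
      have h3 := HasFDerivAt.comp_hasDerivAt (l := Mu_KC k) (f := fun t : ℝ => (s, c (s, t))) t h1 h2
      exact h3
    have e2 : (fun t => Mu_KC k (s, c (s, t))) = fun t => G (s, Real.cos t) := by
      funext t
      unfold Mu_KC
      simp only
      rw [hc.cos, hkG s _ ⟨Real.neg_one_le_cos t, Real.cos_le_one t⟩]
    rw [e2] at e1
    have e3 := e1.unique (hG2 s t)
    rw [← Mu_fd hk] at e3
    have e4 : fderiv ℝ (HK k s) (c (s, t)) (d2 c (s, t)) =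
        (d2 c (s, t)).re * fderiv ℝ (HK k s) (c (s, t)) 1 +
          (d2 c (s, t)).im * fderiv ℝ (HK k s) (c (s, t)) Complex.I := by
      have h5 : d2 c (s, t) = (d2 c (s, t)).re • (1 : ℂ) + (d2 c (s, t)).im • Complex.I := by
        apply Complex.ext <;> simp
      conv_lhs => rw [h5]
      rw [map_add, map_smul, map_smul, smul_eq_mul, smul_eq_mul]
    rw [e4] at e3
    have hn := hv (s, t)
    unfold XK
    obtain ⟨A, hA⟩ : ∃ A : ℝ, A = fderiv ℝ (HK k s) (c (s, t)) 1 := ⟨_, rfl⟩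
    obtain ⟨B, hB⟩ : ∃ B : ℝ, B = fderiv ℝ (HK k s) (c (s, t)) Complex.I := ⟨_, rfl⟩
    simp only
    rw [← hA, ← hB] at e3 ⊢
    apply Complex.ext
    · rw [Complex.add_re, Complex.real_smul, Complex.re_ofReal_mul, div_mul_eq_mul_div,
        ← sub_eq_iff_eq_add', eq_div_iff hn]
      linear_combination (d2 c (s, t)).im * e3
    · rw [Complex.add_im, Complex.real_smul, Complex.im_ofReal_mul, div_mul_eq_mul_div,
        ← sub_eq_iff_eq_add', eq_div_iff hn]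
      linear_combination -(d2 c (s, t)).re * e3

end Pool.Agent.H86.PL
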