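import Mathlib

/-!
# Module Ode: the reparametrisation

PROOF. On the compact set `Icc (-2) 2 ×ˢ Icc 0 (2π)` and by periodicity on `Icc (-2) 2 ×ˢ univ`: `|μ| ≤ A`, `|∂_t μ| ≤ L`, so `τ ↦ μ (s, τ)` is `L`-Lipschitz for `|s| ≤ 2`. For every `s₀ ∈ [-1, 1]` and `u` there is a solution `τ` on `(-2, 2)`, `τ s₀ = u`, `HasDerivAt τ (μ (s, τ s)) s` for `|s| < 2` (`IsPicardLindelof` on `Icc (-2) 2` with the ball of
radius `4 A + 1` around `u`, `IsPicardLindelof.exists_eq_forall_mem_Icc_hasDerivWithinAt` or similar). `τ t` = the solution with value `t` at `0`. For the last claim take the solution with value `u` at `1`, `t` its value at `0`; by uniqueness (`ODE_solution_unique_of_mem_Icc` or `ODE_solution_unique_of_mem_Ioo`) it is `τ t` on `(-2, 2)`, so `τ t 1 = u`.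
-/

set_option autoImplicit false

open scoped ContDiff Topology
open Set Filter

namespace Pool.Agent.H86.PL

private lemma ode_bd {μ : ℝ × ℝ → ℝ} (hμ : ContDiff ℝ ∞ μ)
    (hp : ∀ s t, μ (s, t + 2 * Real.pi) = μ (s, t)) :
    ∃ A L : NNReal, ∀ s ∈ Icc (-2 : ℝ) 2, (∀ x, ‖μ (s, x)‖ ≤ A) ∧
      LipschitzWith L fun x => μ (s, x) := by
  have hpi : 0 < 2 * Real.pi := by positivity
  have hK : IsCompact (Icc (-2 : ℝ) 2 ×ˢ Icc (0 : ℝ) (2 * Real.pi)) := isCompact_Icc.prod isCompact_Icc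
  have hd : Continuous (fderiv ℝ μ) := hμ.continuous_fderiv (by simp)
  obtain ⟨A, hA⟩ := hK.exists_bound_of_continuousOn hμ.continuous.continuousOn
  obtain ⟨L, hL⟩ := hK.exists_bound_of_continuousOn hd.continuousOn
  have hfd : ∀ s t, fderiv ℝ μ (s, t + 2 * Real.pi) = fderiv ℝ μ (s, t) := fun s t => by
    have h1 : (fun q : ℝ × ℝ => μ (q + (0, 2 * Real.pi))) = μ := by
      funext q
      obtain ⟨a, b⟩ := q
      show μ ((a, b) + (0, 2 * Real.pi)) = μ (a, b)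
      rw [Prod.mk_add_mk, add_zero]
      exact hp a b
    have h2 := fderiv_comp_add_right (𝕜 := ℝ) (f := μ) (x := (s, t)) (0, 2 * Real.pi)
    rw [h1, Prod.mk_add_mk, add_zero] at h2
    exact h2.symm
  have hA0 : 0 ≤ A := (norm_nonneg _).trans (hA (0, 0) ⟨⟨by norm_num, by norm_num⟩, ⟨le_rfl, hpi.le⟩⟩)
  have hL0 : 0 ≤ L := (norm_nonneg _).trans (hL (0, 0) ⟨⟨by norm_num, by norm_num⟩, ⟨le_rfl, hpi.le⟩⟩)
  refine ⟨⟨A, hA0⟩, ⟨L, hL0⟩, fun s hs => ⟨fun x => ?_, ?_⟩⟩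
  · have hper : Function.Periodic (fun t => μ (s, t)) (2 * Real.pi) := fun t => hp s t
    obtain ⟨y, hy, hxy⟩ := hper.exists_mem_Ico₀ hpi x
    have hxy' : μ (s, x) = μ (s, y) := hxy
    rw [hxy']
    exact hA (s, y) ⟨hs, ⟨hy.1, hy.2.le⟩⟩
  · have hder : ∀ x, HasDerivAt (fun x => μ (s, x)) (fderiv ℝ μ (s, x) (0, 1)) x := fun x => by
      have h1 : HasFDerivAt μ (fderiv ℝ μ (s, x)) (s, x) :=
        (hμ.differentiable (by simp) (s, x)).hasFDerivAt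
      have h2 : HasDerivAt (fun x : ℝ => ((s, x) : ℝ × ℝ)) (0, 1) x :=
        (hasDerivAt_const x s).prodMk (hasDerivAt_id x)
      exact h1.comp_hasDerivAt x h2
    refine lipschitzWith_of_nnnorm_deriv_le (fun x => (hder x).differentiableAt) fun x => ?_
    rw [(hder x).deriv]
    have hper : Function.Periodic (fun t => fderiv ℝ μ (s, t)) (2 * Real.pi) := fun t => hfd s t
    obtain ⟨y, hy, hxy⟩ := hper.exists_mem_Ico₀ hpi x
    have hxy' : fderiv ℝ μ (s, x) = fderiv ℝ μ (s, y) := hxy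
    rw [hxy', ← NNReal.coe_le_coe, coe_nnnorm]
    have h3 := (fderiv ℝ μ (s, y)).le_opNorm (0, 1)
    have h4 : ‖((0 : ℝ), (1 : ℝ))‖ = 1 := by simp
    rw [h4, mul_one] at h3
    exact h3.trans (hL (s, y) ⟨hs, ⟨hy.1, hy.2.le⟩⟩)

private lemma ode_sol {μ : ℝ × ℝ → ℝ} (hμ : ContDiff ℝ ∞ μ) {A L : NNReal}
    (hb : ∀ s ∈ Icc (-2 : ℝ) 2, (∀ x, ‖μ (s, x)‖ ≤ A) ∧ LipschitzWith L fun x => μ (s, x))
    (s₀ : ℝ) (hs : s₀ ∈ Icc (-1 : ℝ) 1) (u : ℝ) :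
    ∃ α : ℝ → ℝ, α s₀ = u ∧ ∀ t ∈ Ioo (-2 : ℝ) 2, HasDerivAt α (μ (t, α t)) t := by
  have hs' : s₀ ∈ Icc (-2 : ℝ) 2 := ⟨by linarith [hs.1], by linarith [hs.2]⟩
  have hPL : IsPicardLindelof (fun s x => μ (s, x)) (⟨s₀, hs'⟩ : Icc (-2 : ℝ) 2) u (4 * A) 0 A L := by
    refine ⟨fun t ht => (hb t ht).2.lipschitzOnWith, fun x _ => ?_, fun t ht x _ => (hb t ht).1 x, ?_⟩
    · exact (hμ.continuous.comp (Continuous.prodMk_left x)).continuousOn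
    · have h1 : max ((2 : ℝ) - s₀) (s₀ - (-2)) ≤ 4 :=
        max_le (by linarith [hs.1]) (by linarith [hs.2])
      have h2 := mul_le_mul_of_nonneg_left h1 A.2
      push_cast
      rw [sub_zero, mul_comm (4 : ℝ)]
      exact h2
  obtain ⟨α, h1, h2⟩ := hPL.exists_eq_forall_mem_Icc_hasDerivWithinAt₀
  exact ⟨α, h1, fun t ht => (h2 t (Ioo_subset_Icc_self ht)).hasDerivAt (Icc_mem_nhds ht.1 ht.2)⟩

theorem exists_tau {μ : ℝ × ℝ → ℝ} (hμ : ContDiff ℝ ∞ μ) (hp : ∀ s t, μ (s, t + 2 * Real.pi) = μ (s, t)) :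
    ∃ τ : ℝ → ℝ → ℝ, (∀ t, τ t 0 = t) ∧ (∀ t s, |s| ≤ 1 → HasDerivAt (τ t) (μ (s, τ t s)) s) ∧
      ∀ u, ∃ t, τ t 1 = u := by
  obtain ⟨A, L, hb⟩ := ode_bd hμ hp
  choose τ h0 h1 using ode_sol hμ hb 0 ⟨by norm_num, by norm_num⟩
  refine ⟨τ, h0, fun t s hs => ?_, fun u => ?_⟩
  · have h2 := abs_le.1 hs
    exact h1 t s ⟨by linarith [h2.1], by linarith [h2.2]⟩
  · obtain ⟨α, ha, hα⟩ := ode_sol hμ hb 1 ⟨by norm_num, le_rfl⟩ u
    refine ⟨α 0, ?_⟩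
    have h3 : EqOn (τ (α 0)) α (Ioo (-2) 2) := by
      refine ODE_solution_unique_of_mem_Ioo (v := fun s x => μ (s, x)) (s := fun _ => univ)
        (K := L) (t₀ := 0) (fun t ht => ?_) ⟨by norm_num, by norm_num⟩
        (fun t ht => ⟨h1 (α 0) t ht, mem_univ _⟩) (fun t ht => ⟨hα t ht, mem_univ _⟩) (h0 _)
      exact ((hb t (Ioo_subset_Icc_self ht)).2).lipschitzOnWith
    rw [h3 ⟨by norm_num, by norm_num⟩, ha]

end Pool.Agent.H86.PL
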