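import Pool.Agent.H86.PL.ArcG
import Pool.Agent.H86.PL.Iso
import Pool.Agent.H86.PL.HamG
import Pool.Agent.H86.PL.ExtK
import Pool.Agent.H86.PL.KK
import Pool.Agent.H86.PL.Mu
import Pool.Agent.H86.PL.Ode

/-!
# Planar part of Theorem IV: assembly
-/

set_option autoImplicit false

open scoped ContDiff Topology
open Set Filter

namespace Pool.Agent.H86.PL

open Pool.Agent.H73.CO

/-- the curves stay in a strip -/
theorem lift_bdd {b c : ℝ × ℝ → ℂ} (hc : ArcLift b c) :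
    ∃ R : ℝ, ∀ s t, |s| ≤ 1 → |(c (s, t)).im| ≤ R := by
  have hcomp : IsCompact (Icc (-1 : ℝ) 1 ×ˢ Icc (0 : ℝ) (2 * Real.pi)) := isCompact_Icc.prod isCompact_Icc
  have hcont : ContinuousOn (fun p : ℝ × ℝ => |(c p).im|) (Icc (-1 : ℝ) 1 ×ˢ Icc (0 : ℝ) (2 * Real.pi)) :=
    (Complex.continuous_im.comp hc.smooth.continuous).abs.continuousOn
  obtain ⟨R, hR⟩ := hcomp.bddAbove_image hcont
  refine ⟨R, fun s t hs => ?_⟩
  have hper : Function.Periodic (fun t => (c (s, t)).im) (2 * Real.pi) := by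
    intro t
    show (c (s, t + 2 * Real.pi)).im = (c (s, t)).im
    rw [hc.per, Complex.add_im, Complex.ofReal_im, add_zero]
  obtain ⟨t', ht', h⟩ := hper.exists_mem_Ico₀ Real.two_pi_pos t
  have h2 : (c (s, t)).im = (c (s, t')).im := h
  rw [h2]
  exact hR ⟨(s, t'), ⟨abs_le.1 hs, ht'.1, ht'.2.le⟩, rfl⟩

theorem planar_main {γ : ℝ → ℂ} (h : OddCurve γ) : ∃ K Z, PlanarIso γ K Z := by
  obtain ⟨β, hβ, hγβ⟩ := exists_arc h
  obtain ⟨b, hb⟩ := exists_iso hβ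
  obtain ⟨c, hc⟩ := exists_lift hb
  obtain ⟨G, hG, hG2⟩ := exists_G hb hc
  obtain ⟨k, hk, hkG⟩ := exists_k hb hG
  obtain ⟨R, hR⟩ := lift_bdd hc
  obtain ⟨K, hK, hK1, hK2, hKX⟩ := exists_K hk R
  obtain ⟨μ, hμ, hμp, hμX⟩ := exists_mu hb hc hk hkG hG2
  obtain ⟨τ, hτ0, hτ1, hτ2⟩ := exists_tau hμ hμp
  refine ⟨K, fun s t => c (s, τ t s), hK, hK1, hK2, ?_, ?_, ?_, ?_⟩
  · intro t
    show c (0, τ t 0) = t
    rw [hτ0, hc.start]
  · intro s t hs
    show HasDerivAt (fun s => c (s, τ t s)) (XP K s (c (s, τ t s))) s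
    rw [hKX s hs _ (hR s _ hs), hμX]
    have h1 := hτ1 t s hs
    have h2 : HasFDerivAt c (fderiv ℝ c (s, τ t s)) (s, τ t s) :=
      (hc.smooth.differentiable (by simp) _).hasFDerivAt
    have h3 : HasDerivAt (fun s => (s, τ t s)) ((1 : ℝ), μ (s, τ t s)) s := (hasDerivAt_id s).prodMk h1
    have h4 := h2.comp_hasDerivAt s h3
    have e : fderiv ℝ c (s, τ t s) ((1 : ℝ), μ (s, τ t s)) =
        d1 c (s, τ t s) + μ (s, τ t s) • d2 c (s, τ t s) := by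
      unfold d1 d2
      rw [← map_smul, ← map_add]
      congr 1
      simp
    rw [e] at h4
    exact h4
  · intro t
    refine ⟨τ t 1, ?_⟩
    show Complex.cos (c (1, τ t 1)) = _
    rw [hc.cos, hb.fin, hγβ]
  · intro u
    obtain ⟨t, ht⟩ := hτ2 u
    refine ⟨t, ?_⟩
    show Complex.cos (c (1, τ t 1)) = _
    rw [hc.cos, hb.fin, hγβ, ht]

end Pool.Agent.H86.PL
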