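import Pool.Agent.H86.PL.Par

/-!
# Module DivS: division of odd periodic functions by the sine

PROOF. `f 0 = 0` (odd), `f π = f (-π)` (period) `= -f π`, so `f (k π) = 0` for all integers `k`. `g t = (sin t)⁻¹ • f t` if `sin t ≠ 0`, `g t = (cos t) • deriv f t` if `sin t = 0` (`cos t = ± 1`). Smooth at `t` with `sin t ≠ 0`: clear. Near `t₀ = k π`: `exists_div` (with `f (s, t) = f t`) gives `f t = (t - t₀) • A t`,
`sin t = (t - t₀) * B t`, `A`, `B` smooth, `B t₀ = cos t₀ ≠ 0`, `A t₀ = deriv f t₀`: `g = B⁻¹ • A` near `t₀` (where `B ≠ 0` and `|t - t₀| < π`). Even: clear off the zeros of the sine; at `t = k π` the derivative of an odd function is even. Periodic: clear. (`contDiff_iff_contDiffAt`.)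
-/

set_option autoImplicit false

open scoped ContDiff Topology
open Set Filter

namespace Pool.Agent.H86.PL

private theorem DivS_div {V : Type} [NormedAddCommGroup V] [NormedSpace ℝ V] [CompleteSpace V]
    {f : ℝ → V} (hf : ContDiff ℝ ∞ f) (a : ℝ) (h0 : f a = 0) :
    ∃ g : ℝ → V, ContDiff ℝ ∞ g ∧ (∀ x, f x = (x - a) • g x) ∧ HasDerivAt f (g a) a := by
  obtain ⟨g, hg, h1⟩ := exists_div (f := fun p : ℝ × ℝ => f p.2) (hf.comp contDiff_snd) a
    (fun _ => h0)
  have hg1 : ContDiff ℝ ∞ fun x => g (0, x) := hg.comp (contDiff_const.prodMk contDiff_id)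
  have h2 : ∀ x, f x = (x - a) • g (0, x) := fun x => h1 0 x
  refine ⟨fun x => g (0, x), hg1, h2, ?_⟩
  have h3 : DifferentiableAt ℝ (fun x => g (0, x)) a := hg1.differentiable (by simp) a
  have h4 := ((hasDerivAt_id a).sub_const a).smul h3.hasDerivAt
  simp only [id, sub_self, zero_smul, one_smul, zero_add] at h4
  have h5 : f = fun x => (x - a) • g (0, x) := funext h2
  rw [h5]
  exact h4

theorem div_sin {f : ℝ → ℂ} (hf : ContDiff ℝ ∞ f) (ho : ∀ t, f (-t) = -f t)
    (hp : ∀ t, f (t + 2 * Real.pi) = f t) : ∃ g : ℝ → ℂ, ContDiff ℝ ∞ g ∧ (∀ t, g (-t) = g t) ∧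
      (∀ t, g (t + 2 * Real.pi) = g t) ∧ ∀ t, f t = Real.sin t • g t := by
  have hper : Function.Periodic f (2 * Real.pi) := hp
  have hz : ∀ t, Real.sin t = 0 → f t = 0 := by
    intro t ht
    obtain ⟨k, rfl⟩ := Real.sin_eq_zero_iff.1 ht
    have h1 : f (-((k : ℝ) * Real.pi) + k * (2 * Real.pi)) = f (-((k : ℝ) * Real.pi)) :=
      hper.int_mul k _
    rw [ho, show -((k : ℝ) * Real.pi) + k * (2 * Real.pi) = k * Real.pi by ring] at h1
    exact self_eq_neg.1 h1
  have hde : ∀ t, deriv f (-t) = deriv f t := by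
    intro t
    have h1 : (fun x => f (-x)) = fun x => -f x := funext ho
    have h2 : deriv (fun x => f (-x)) t = deriv (fun x => -f x) t := by rw [h1]
    rw [deriv_comp_neg, deriv.fun_neg] at h2
    exact neg_injective h2
  have hdp : ∀ t, deriv f (t + 2 * Real.pi) = deriv f t := by
    intro t
    have h1 : (fun x => f (x + 2 * Real.pi)) = f := funext hp
    have h2 : deriv (fun x => f (x + 2 * Real.pi)) t = deriv f t := by rw [h1]
    rw [deriv_comp_add_const] at h2
    exact h2
  classical
  refine ⟨fun t => if Real.sin t = 0 then Real.cos t • deriv f t else (Real.sin t)⁻¹ • f t,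
    ?_, ?_, ?_, ?_⟩
  · rw [contDiff_iff_contDiffAt]
    intro t0
    by_cases h : Real.sin t0 = 0
    · obtain ⟨A, hA, hA1, hA2⟩ := DivS_div hf t0 (hz t0 h)
      obtain ⟨B, hB, hB1, hB2⟩ := DivS_div (V := ℝ) Real.contDiff_sin t0 h
      have hB3 : B t0 = Real.cos t0 := hB2.unique (Real.hasDerivAt_sin t0)
      have hA3 : deriv f t0 = A t0 := hA2.deriv
      have hc : Real.cos t0 * Real.cos t0 = 1 := by
        have h1 := Real.sin_sq_add_cos_sq t0
        rw [h] at h1
        nlinarith
      have hc0 : Real.cos t0 ≠ 0 := by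
        intro h1
        rw [h1] at hc
        norm_num at hc
      have hB0 : B t0 ≠ 0 := by rw [hB3]; exact hc0
      have h2 : ContDiffAt ℝ ∞ (fun t => (B t)⁻¹ • A t) t0 :=
        (hB.contDiffAt.inv hB0).smul hA.contDiffAt
      refine h2.congr_of_eventuallyEq ?_
      filter_upwards [hB.continuous.continuousAt.eventually_ne hB0] with t ht
      by_cases htt : t = t0
      · subst htt
        rw [if_pos h, hA3, hB3]
        congr 1
        exact eq_inv_of_mul_eq_one_left hc
      · have h3 : t - t0 ≠ 0 := sub_ne_zero.2 htt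
        have h4 : Real.sin t = (t - t0) * B t := hB1 t
        have h5 : Real.sin t ≠ 0 := by
          rw [h4]
          exact mul_ne_zero h3 ht
        rw [if_neg h5, h4, hA1 t, smul_smul]
        congr 1
        field_simp
    · have h2 : ContDiffAt ℝ ∞ (fun t => (Real.sin t)⁻¹ • f t) t0 :=
        (Real.contDiff_sin.contDiffAt.inv h).smul hf.contDiffAt
      refine h2.congr_of_eventuallyEq ?_
      filter_upwards [Real.continuous_sin.continuousAt.eventually_ne h] with t ht
      rw [if_neg ht]
  · intro t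
    simp only [Real.sin_neg, Real.cos_neg, neg_eq_zero, hde, ho]
    by_cases h : Real.sin t = 0
    · rw [if_pos h, if_pos h]
    · rw [if_neg h, if_neg h, inv_neg, neg_smul, smul_neg, neg_neg]
  · intro t
    simp only [Real.sin_add_two_pi, Real.cos_add_two_pi, hdp, hp]
  · intro t
    by_cases h : Real.sin t = 0
    · rw [hz t h, h, zero_smul]
    · simp only [if_neg h]
      rw [smul_smul, mul_inv_cancel₀ h, one_smul]

end Pool.Agent.H86.PL
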