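import Pool.Agent.H86.PL.Borel
import Pool.Agent.H86.PL.DivS

/-!
# Module Cosf: smooth even periodic functions are smooth functions of the cosine

PROOF. For `f` smooth, even, `2π`-periodic the derivative is odd and periodic, so `deriv f t = -sin t • (L f) t` with `L f` smooth, even, periodic (`div_sin`). `f_0 = f`, `f_(n+1) = L f_n` (recursion on the subtype of such functions). `g₊`, `g₋` from `borel`: `iteratedDeriv n g₊ 0 = f_n 0`, `iteratedDeriv n g₋ 0 = f_n π`. Put
`b_n x = f_n (arccos x) + (iteratedDeriv n g₊ (max (x - 1) 0) - f_n 0) + (iteratedDeriv n g₋ (min (x + 1) 0) - f_n π)`; continuous (`Real.continuous_arccos`; `arccos x = 0` for `x ≥ 1`, `= π` for `x ≤ -1`). For `x ≠ 1, -1`: `HasDerivAt (b_n) (b_(n+1) x) x`: `x < -1`: `b_n = iteratedDeriv n g₋ (· + 1)` near `x`;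
`|x| < 1`: `b_n = f_n ∘ arccos` near `x`, derivative `-(√(1-x²))⁻¹ • (-sin (arccos x)) • f_(n+1) (arccos x)` (`Real.hasDerivAt_arccos`, `Real.sin_arccos`); `x > 1` similar. Hence for all `x` (`b_n x = b_n 0 + ∫₀ˣ b_(n+1)`, `MeasureTheory.integral_eq_of_hasDerivAt_off_countable` with the exceptional set `{1, -1}`, and
`intervalIntegral.integral_hasDerivAt_right`, or `hasDerivAt_of_hasDerivAt_of_ne`). Then `ContDiff ℝ n (b_k)` for all `k` by induction on `n` (`contDiff_succ_iff_deriv`), `β = b_0`. `f t = β (cos t)`: `u = arccos (cos t)`, `cos u = cos t`, so `t = 2 k π ± u` (`Real.cos_eq_cos_iff`), `f t = f u`; the two other terms vanish since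
`max (cos t - 1) 0 = 0`, `min (cos t + 1) 0 = 0`.
-/

set_option autoImplicit false

open scoped ContDiff Topology
open Set Filter

namespace Pool.Agent.H86.PL

/-- smooth, even, periodic -/
private def CosfP (f : ℝ → ℂ) : Prop :=
  ContDiff ℝ ∞ f ∧ (∀ t, f (-t) = f t) ∧ ∀ t, f (t + 2 * Real.pi) = f t

private lemma cosf_step (f : ℝ → ℂ) (h : CosfP f) :
    ∃ g : ℝ → ℂ, CosfP g ∧ ∀ t, deriv f t = (-Real.sin t) • g t := by
  obtain ⟨hf, he, hp⟩ := h
  have hd : ContDiff ℝ ∞ (deriv f) := by
    have := hf.iterate_deriv 1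
    simpa using this
  have ho : ∀ t, deriv f (-t) = -deriv f t := fun t => by
    have e : (fun x => f (-x)) = f := funext he
    have h1 := deriv_comp_neg f t
    rw [e] at h1
    rw [h1, neg_neg]
  have hq : ∀ t, deriv f (t + 2 * Real.pi) = deriv f t := fun t => by
    have e : (fun x => f (x + 2 * Real.pi)) = f := funext hp
    have h1 := deriv_comp_add_const f (2 * Real.pi) t
    rw [e] at h1
    exact h1.symm
  obtain ⟨g, g1, g2, g3, g4⟩ := div_sin hd ho hq
  refine ⟨fun t => -g t, ⟨g1.neg, fun t => ?_, fun t => ?_⟩, fun t => ?_⟩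
  · show -g (-t) = -g t
    rw [g2]
  · show -g (t + 2 * Real.pi) = -g t
    rw [g3]
  · rw [g4]
    simp

private lemma cosf_seq {f : ℝ → ℂ} (h : CosfP f) : ∃ F : ℕ → ℝ → ℂ, F 0 = f ∧ (∀ n, CosfP (F n)) ∧
    ∀ n t, deriv (F n) t = (-Real.sin t) • F (n + 1) t := by
  choose L hL using cosf_step
  let S : ℕ → {g : ℝ → ℂ // CosfP g} := fun n =>
    Nat.rec ⟨f, h⟩ (fun _ s => ⟨L s.1 s.2, (hL s.1 s.2).1⟩) n
  exact ⟨fun n => (S n).1, rfl, fun n => (S n).2, fun n t => (hL (S n).1 (S n).2).2 t⟩

private lemma cosf_it {g : ℝ → ℂ} (hg : ContDiff ℝ ∞ g) (n : ℕ) (x : ℝ) :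
    HasDerivAt (iteratedDeriv n g) (iteratedDeriv (n + 1) g x) x := by
  have h : Differentiable ℝ (iteratedDeriv n g) :=
    hg.differentiable_iteratedDeriv n (by exact_mod_cast WithTop.coe_lt_coe.2 (ENat.natCast_lt_top n))
  rw [iteratedDeriv_succ]
  exact (h x).hasDerivAt

private lemma cosf_pt {f g : ℝ → ℂ} {x : ℝ} (hf : Continuous f) (hg : Continuous g)
    (h : ∀ y, y ≠ x → |y - x| < 1 → HasDerivAt f (g y) y) : HasDerivAt f (g x) x := by
  have m1 : Ioo x (x + 1) ∈ 𝓝[>] x := Ioo_mem_nhdsGT (by linarith)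
  have m2 : Ioo (x - 1) x ∈ 𝓝[<] x := Ioo_mem_nhdsLT (by linarith)
  have h1 : ∀ y ∈ Ioo x (x + 1), HasDerivAt f (g y) y := fun y hy =>
    h y hy.1.ne' (abs_lt.2 ⟨by linarith [hy.1], by linarith [hy.2]⟩)
  have h2 : ∀ y ∈ Ioo (x - 1) x, HasDerivAt f (g y) y := fun y hy =>
    h y hy.2.ne (abs_lt.2 ⟨by linarith [hy.1], by linarith [hy.2]⟩)
  have A : HasDerivWithinAt f (g x) (Ici x) x := by
    refine hasDerivWithinAt_Ici_of_tendsto_deriv (s := Ioo x (x + 1))
      (fun y hy => (h1 y hy).differentiableAt.differentiableWithinAt)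
      hf.continuousAt.continuousWithinAt m1 ?_
    have t : Tendsto g (𝓝[>] x) (𝓝 (g x)) := hg.continuousAt.tendsto.mono_left nhdsWithin_le_nhds
    refine t.congr' ?_
    filter_upwards [m1] with y hy
    exact (h1 y hy).deriv.symm
  have B : HasDerivWithinAt f (g x) (Iic x) x := by
    refine hasDerivWithinAt_Iic_of_tendsto_deriv (s := Ioo (x - 1) x)
      (fun y hy => (h2 y hy).differentiableAt.differentiableWithinAt)
      hf.continuousAt.continuousWithinAt m2 ?_
    have t : Tendsto g (𝓝[<] x) (𝓝 (g x)) := hg.continuousAt.tendsto.mono_left nhdsWithin_le_nhds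
    refine t.congr' ?_
    filter_upwards [m2] with y hy
    exact (h2 y hy).deriv.symm
  simpa using B.union A

private lemma cosf_smooth {b : ℕ → ℝ → ℂ} (h : ∀ n x, HasDerivAt (b n) (b (n + 1) x) x) (m : ℕ) :
    ∀ n, ContDiff ℝ m (b n) := by
  induction m with
  | zero =>
    intro n
    have c : Continuous (b n) := continuous_iff_continuousAt.2 fun x => (h n x).continuousAt
    exact_mod_cast contDiff_zero.2 c
  | succ m ih =>
    intro n
    have e : deriv (b n) = b (n + 1) := funext fun x => (h n x).deriv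
    have r : ContDiff ℝ ((m : WithTop ℕ∞) + 1) (b n) := by
      refine contDiff_succ_iff_deriv.2 ⟨fun x => (h n x).differentiableAt, fun hω => ?_, ?_⟩
      · exact absurd hω (by simp)
      · rw [e]
        exact ih (n + 1)
    exact_mod_cast r

theorem cos_fun {f : ℝ → ℂ} (hf : ContDiff ℝ ∞ f) (he : ∀ t, f (-t) = f t)
    (hp : ∀ t, f (t + 2 * Real.pi) = f t) :
    ∃ β : ℝ → ℂ, ContDiff ℝ ∞ β ∧ ∀ t, f t = β (Real.cos t) := by
  obtain ⟨F, F0, FP, Fd⟩ := cosf_seq (f := f) ⟨hf, he, hp⟩
  obtain ⟨gp, gp1, gp2⟩ := borel fun n => F n 0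
  obtain ⟨gm, gm1, gm2⟩ := borel fun n => F n Real.pi
  let b : ℕ → ℝ → ℂ := fun n x => F n (Real.arccos x) + (iteratedDeriv n gp (max (x - 1) 0) - F n 0) +
    (iteratedDeriv n gm (min (x + 1) 0) - F n Real.pi)
  have bm : ∀ n x, x ≤ -1 → b n x = iteratedDeriv n gm (x + 1) := fun n x hx => by
    show F n (Real.arccos x) + (iteratedDeriv n gp (max (x - 1) 0) - F n 0) +
      (iteratedDeriv n gm (min (x + 1) 0) - F n Real.pi) = _
    rw [Real.arccos_eq_pi.2 hx, max_eq_right (by linarith), min_eq_left (by linarith), gp2]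
    ring
  have bp : ∀ n x, 1 ≤ x → b n x = iteratedDeriv n gp (x - 1) := fun n x hx => by
    show F n (Real.arccos x) + (iteratedDeriv n gp (max (x - 1) 0) - F n 0) +
      (iteratedDeriv n gm (min (x + 1) 0) - F n Real.pi) = _
    rw [Real.arccos_eq_zero.2 hx, max_eq_left (by linarith), min_eq_right (by linarith), gm2]
    ring
  have b0 : ∀ n x, -1 ≤ x → x ≤ 1 → b n x = F n (Real.arccos x) := fun n x hx hx' => by
    show F n (Real.arccos x) + (iteratedDeriv n gp (max (x - 1) 0) - F n 0) +
      (iteratedDeriv n gm (min (x + 1) 0) - F n Real.pi) = _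
    rw [max_eq_right (by linarith), min_eq_right (by linarith), gm2, gp2]
    ring
  have Fc : ∀ n, Continuous (F n) := fun n => (FP n).1.continuous
  have bc : ∀ n, Continuous (b n) := fun n => by
    have c1 : Continuous (iteratedDeriv n gp) := gp1.continuous_iteratedDeriv n (by exact_mod_cast le_top)
    have c2 : Continuous (iteratedDeriv n gm) := gm1.continuous_iteratedDeriv n (by exact_mod_cast le_top)
    exact (((Fc n).comp Real.continuous_arccos).add ((c1.comp (by fun_prop)).sub continuous_const)).add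
      ((c2.comp (by fun_prop)).sub continuous_const)
  have hoff : ∀ n x, x ≠ 1 → x ≠ -1 → HasDerivAt (b n) (b (n + 1) x) x := fun n x h1 h2 => by
    rcases lt_trichotomy x (-1) with hx | hx | hx
    · rw [bm (n + 1) x hx.le]
      have h := (cosf_it gm1 n (x + 1)).comp_add_const x 1
      refine h.congr_of_eventuallyEq ?_
      filter_upwards [Iio_mem_nhds hx] with y hy
      exact bm n y (le_of_lt hy)
    · exact absurd hx h2
    · rcases lt_trichotomy x 1 with hy | hy | hy
      · rw [b0 (n + 1) x hx.le hy.le]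
        have hF : HasDerivAt (F n) ((-Real.sin (Real.arccos x)) • F (n + 1) (Real.arccos x))
            (Real.arccos x) := by
          rw [← Fd]
          exact (((FP n).1.differentiable (by simp)) _).hasDerivAt
        have h := HasDerivAt.scomp x hF (Real.hasDerivAt_arccos hx.ne' hy.ne)
        have hs : 0 < Real.sqrt (1 - x ^ 2) := Real.sqrt_pos.2 (by nlinarith)
        have e : (-(1 / Real.sqrt (1 - x ^ 2))) • (-Real.sin (Real.arccos x)) • F (n + 1) (Real.arccos x) =
            F (n + 1) (Real.arccos x) := by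
          rw [smul_smul, Real.sin_arccos]
          have : -(1 / Real.sqrt (1 - x ^ 2)) * -Real.sqrt (1 - x ^ 2) = 1 := by
            field_simp
          rw [this, one_smul]
        rw [e] at h
        refine h.congr_of_eventuallyEq ?_
        filter_upwards [Ioo_mem_nhds hx hy] with y hy
        exact b0 n y hy.1.le hy.2.le
      · exact absurd hy h1
      · rw [bp (n + 1) x hy.le]
        have h := (cosf_it gp1 n (x - 1)).comp_sub_const x 1
        refine h.congr_of_eventuallyEq ?_
        filter_upwards [Ioi_mem_nhds hy] with y hy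
        exact bp n y (le_of_lt hy)
  have hall : ∀ n x, HasDerivAt (b n) (b (n + 1) x) x := fun n x => by
    by_cases h1 : x = 1
    · refine cosf_pt (bc n) (bc (n + 1)) fun y hy hy' => ?_
      rw [h1] at hy hy'
      refine hoff n y hy fun h => ?_
      rw [h, abs_lt] at hy'
      linarith [hy'.1]
    · by_cases h2 : x = -1
      · refine cosf_pt (bc n) (bc (n + 1)) fun y hy hy' => ?_
        rw [h2] at hy hy'
        refine hoff n y (fun h => ?_) hy
        rw [h, abs_lt] at hy'
        linarith [hy'.2]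
      · exact hoff n x h1 h2
  refine ⟨b 0, contDiff_infty.2 fun m => cosf_smooth hall m 0, fun t => ?_⟩
  rw [b0 0 _ (Real.neg_one_le_cos t) (Real.cos_le_one t), F0]
  have hper : Function.Periodic f (2 * Real.pi) := hp
  have hcos : Real.cos (Real.arccos (Real.cos t)) = Real.cos t :=
    Real.cos_arccos (Real.neg_one_le_cos t) (Real.cos_le_one t)
  obtain ⟨k, hk⟩ := Real.cos_eq_cos_iff.1 hcos
  set u := Real.arccos (Real.cos t) with hu
  rcases hk with hk | hk
  · have e : t = u + k * (2 * Real.pi) := by rw [hk]; ring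
    rw [e]
    exact (hper.int_mul k) u
  · have e : t = -u + k * (2 * Real.pi) := by rw [hk]; ring
    rw [e, (hper.int_mul k) (-u), he]

end Pool.Agent.H86.PL
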