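import Pool.Agent.H86.PL.Defs
import Pool.Agent.H86.PL.Cosf

/-!
# Module ArcG: the arc of an odd curve

PROOF. `f t = cos (γ t)` is smooth, even, `2π`-periodic; `β` from `cos_fun`. `γ 0 = 0` (odd), so `β 1 = f 0 = 1`; `γ π = γ (-π) + 2π = -γ π + 2π`, so `γ π = π`, `β (-1) = f π = -1`. `inj`: `x = cos (arccos x)`, `h.inj`. `imm`: differentiate `cos (γ t) = β (cos t)`:
(1) `sin (γ t) * deriv γ t = sin t • deriv β (cos t)` for all `t`. `|x| < 1`, `x = cos t`, `t = arccos x`, `sin t ≠ 0`: if `deriv β x = 0` then `sin (γ t) = 0` by (1) and `h.imm`, so `cos (γ t) = ± 1` (`cos² + sin² = 1`), `β x = β (± 1)`, `x = ± 1`, contradiction. `x = 1`: the derivatives of the two sides of (1) at `t = 0` are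
`cos (γ 0) * (deriv γ 0) ^ 2 + sin (γ 0) * γ''(0) = (deriv γ 0) ^ 2` and `cos 0 • deriv β 1 + sin 0 • … = deriv β 1`. `x = -1`: the same at `t = π`: `-(deriv γ π) ^ 2 = -deriv β (-1)`. (Set `B t = deriv β (cos t)`, a differentiable function, `HasDerivAt.smul`, no formula for its derivative is needed.)
-/

set_option autoImplicit false

open scoped ContDiff Topology
open Set Filter

namespace Pool.Agent.H86.PL

open Pool.Agent.H73.CO

private lemma arcG_deriv {g : ℝ → ℂ} (hg : ContDiff ℝ ∞ g) : ContDiff ℝ ∞ (deriv g) := by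
  have := hg.iterate_deriv 1
  simpa using this

private lemma arcG_has {g : ℝ → ℂ} (hg : ContDiff ℝ ∞ g) (t : ℝ) : HasDerivAt g (deriv g t) t :=
  ((hg.differentiable (by simp)) t).hasDerivAt

private lemma arcG_one {γ β : ℝ → ℂ} (hγ : ContDiff ℝ ∞ γ) (hβ : ContDiff ℝ ∞ β)
    (hf : ∀ t, Complex.cos (γ t) = β (Real.cos t)) (t : ℝ) :
    Complex.sin (γ t) * deriv γ t = Real.sin t • deriv β (Real.cos t) := by
  have h1 : HasDerivAt (fun t => Complex.cos (γ t)) (-Complex.sin (γ t) * deriv γ t) t :=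
    (Complex.hasDerivAt_cos (γ t)).comp t (arcG_has hγ t)
  have h2 : HasDerivAt (fun t => β (Real.cos t)) ((-Real.sin t) • deriv β (Real.cos t)) t :=
    HasDerivAt.scomp t (arcG_has hβ (Real.cos t)) (Real.hasDerivAt_cos t)
  have e : (fun t => Complex.cos (γ t)) = fun t => β (Real.cos t) := funext hf
  rw [e] at h1
  have h3 := h1.unique h2
  rw [neg_mul, neg_smul] at h3
  exact neg_injective h3

private lemma arcG_two {γ β : ℝ → ℂ} (hγ : ContDiff ℝ ∞ γ) (hβ : ContDiff ℝ ∞ β)
    (hf : ∀ t, Complex.cos (γ t) = β (Real.cos t)) (t : ℝ) (hs : Real.sin t = 0)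
    (hs' : Complex.sin (γ t) = 0) :
    Complex.cos (γ t) * deriv γ t * deriv γ t = Real.cos t • deriv β (Real.cos t) := by
  have h1 : HasDerivAt (fun t => Complex.sin (γ t)) (Complex.cos (γ t) * deriv γ t) t :=
    (Complex.hasDerivAt_sin (γ t)).comp t (arcG_has hγ t)
  have h2 := h1.mul (arcG_has (arcG_deriv hγ) t)
  have hB : Differentiable ℝ fun t => deriv β (Real.cos t) :=
    ((arcG_deriv hβ).comp Real.contDiff_cos).differentiable (by simp)
  have h3 := (Real.hasDerivAt_sin t).smul (hB t).hasDerivAt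
  have e : ((fun t => Complex.sin (γ t)) * deriv γ) =
      (Real.sin • fun t => deriv β (Real.cos t)) := by
    funext t
    exact arcG_one hγ hβ hf t
  rw [e] at h2
  have h4 := h2.unique h3
  rw [hs, hs', zero_mul, add_zero, zero_smul, zero_add] at h4
  exact h4

theorem exists_arc {γ : ℝ → ℂ} (h : OddCurve γ) :
    ∃ β : ℝ → ℂ, Arc β ∧ ∀ t, Complex.cos (γ t) = β (Real.cos t) := by
  have hfs : ContDiff ℝ ∞ fun t => Complex.cos (γ t) :=
    (Complex.contDiff_cos.restrict_scalars ℝ).comp h.smooth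
  obtain ⟨β, hβ, hf⟩ := cos_fun hfs (fun t => by rw [h.odd, Complex.cos_neg])
    (fun t => by
      rw [h.per]
      push_cast
      exact Complex.cos_add_two_pi _)
  have g0 : γ 0 = 0 := by
    have h1 := h.odd 0
    rw [neg_zero] at h1
    have h2 : (2 : ℂ) * γ 0 = 0 := by linear_combination h1
    exact (mul_eq_zero.1 h2).resolve_left two_ne_zero
  have gp : γ Real.pi = Real.pi := by
    have h1 := h.per (-Real.pi)
    have e : -Real.pi + 2 * Real.pi = Real.pi := by ring
    rw [e, h.odd] at h1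
    have h2 : (2 : ℂ) * (γ Real.pi - Real.pi) = 0 := by
      push_cast at h1
      linear_combination h1
    exact sub_eq_zero.1 ((mul_eq_zero.1 h2).resolve_left two_ne_zero)
  have b1 : β 1 = 1 := by
    have h1 := hf 0
    rw [g0, Complex.cos_zero, Real.cos_zero] at h1
    exact h1.symm
  have bm : β (-1) = -1 := by
    have h1 := hf Real.pi
    rw [gp, Complex.cos_pi, Real.cos_pi] at h1
    exact h1.symm
  have hinj : ∀ x ∈ Icc (-1 : ℝ) 1, ∀ y ∈ Icc (-1 : ℝ) 1, β x = β y → x = y := by
    intro x hx y hy hxy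
    have ex := Real.cos_arccos hx.1 hx.2
    have ey := Real.cos_arccos hy.1 hy.2
    have h1 : Complex.cos (γ (Real.arccos x)) = Complex.cos (γ (Real.arccos y)) := by
      rw [hf, hf, ex, ey, hxy]
    have h2 := h.inj _ _ h1
    rwa [ex, ey] at h2
  refine ⟨β, ⟨hβ, b1, bm, hinj, ?_⟩, hf⟩
  intro x hx hd
  rcases eq_or_lt_of_le hx.1 with h1 | h1
  · have h2 := arcG_two h.smooth hβ hf Real.pi Real.sin_pi (by rw [gp]; exact Complex.sin_pi)
    rw [Real.cos_pi, h1, hd, smul_zero, gp, Complex.cos_pi] at h2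
    rcases mul_eq_zero.1 h2 with h3 | h3
    · rcases mul_eq_zero.1 h3 with h4 | h4
      · exact absurd h4 (by norm_num)
      · exact h.imm _ h4
    · exact h.imm _ h3
  · rcases eq_or_lt_of_le hx.2 with h2 | h2
    · have h3 := arcG_two h.smooth hβ hf 0 Real.sin_zero (by rw [g0]; exact Complex.sin_zero)
      rw [Real.cos_zero, ← h2, hd, smul_zero, g0, Complex.cos_zero] at h3
      rcases mul_eq_zero.1 h3 with h4 | h4
      · rcases mul_eq_zero.1 h4 with h5 | h5
        · exact absurd h5 (by norm_num)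
        · exact h.imm _ h5
      · exact h.imm _ h4
    · have ex := Real.cos_arccos hx.1 hx.2
      have h3 := arcG_one h.smooth hβ hf (Real.arccos x)
      rw [ex, hd, smul_zero] at h3
      have hs : Complex.sin (γ (Real.arccos x)) = 0 :=
        (mul_eq_zero.1 h3).resolve_right (h.imm _)
      have h4 := Complex.sin_sq_add_cos_sq (γ (Real.arccos x))
      rw [hs, hf, ex] at h4
      have h5 : (β x - 1) * (β x + 1) = 0 := by linear_combination h4
      rcases mul_eq_zero.1 h5 with h6 | h6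
      · have h7 : β x = β 1 := by rw [b1]; exact sub_eq_zero.1 h6
        have h8 := hinj x hx 1 ⟨by norm_num, le_rfl⟩ h7
        linarith
      · have h7 : β x = β (-1) := by rw [bm]; exact eq_neg_of_add_eq_zero_left h6
        have h8 := hinj x hx (-1) ⟨le_rfl, by norm_num⟩ h7
        linarith

end Pool.Agent.H86.PL
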