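import Mathlib

/-!
# Module Borel: smooth functions with prescribed derivatives at a point

PROOF. `χ : ℝ → ℝ` smooth, `χ = 1` on `[-1, 1]`, `χ = 0` off `[-2, 2]` (`ContDiffBump` or `exists_contDiff_tsupport_subset`-style, or `Real.smoothTransition (2 - x²)`-like), `φ k u = (χ u * u ^ k / k!  : ℂ)`, smooth with compact support, `‖iteratedDeriv n (φ k) u‖ ≤ C k n` for all `u`,
`M k = 1 + ∑_(n < k) C k n`, `l k = 1 + 2 ^ k * ‖a k‖ * M k ≥ 1`, `f k u = a k * (l k)⁻¹ ^ k * φ k (l k * u)`. Then `iteratedDeriv n (f k) u = a k * l k ^ (n - k) * iteratedDeriv n (φ k) (l k * u)` (`iteratedDeriv_comp_const_mul` or `iteratedDeriv_const_mul`, `zpow` or cases), so for `n < k` its norm is `≤ ‖a k‖ M k / l k ≤ 2 ^ (-k)`.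
`v n k = if n < k then 2 ^ (-k) else (the bound for this k)` is summable in `k` for each `n`. `g = ∑' k, f k`: `contDiff_tsum` (`‖iteratedFDeriv ℝ n f x‖ = ‖iteratedDeriv n f x‖`, `norm_iteratedFDeriv_eq_norm_iteratedDeriv`), `iteratedFDeriv_tsum_apply` or `iteratedDeriv_tsum`: `iteratedDeriv n g 0 = ∑' k, iteratedDeriv n (f k) 0`,
and `f k u = a k * u ^ k / k!` for `u` near `0`, so `iteratedDeriv n (f k) 0 = if n = k then a k else 0` (`Filter.EventuallyEq.iteratedDeriv_eq`, `iteratedDeriv_pow` or `iter_deriv_pow`).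
-/

set_option autoImplicit false

open scoped ContDiff Topology
open Set Filter

namespace Pool.Agent.H86.PL

private theorem Borel_pow (c : ℂ) (k n : ℕ) :
    iteratedDeriv n (fun u : ℝ => c * (u : ℂ) ^ k) =
      fun u : ℝ => c * (k.descFactorial n : ℂ) * (u : ℂ) ^ (k - n) := by
  induction n with
  | zero =>
    rw [iteratedDeriv_zero]
    funext u
    simp
  | succ n ih =>
    rw [iteratedDeriv_succ, ih]
    funext u
    have h1 : HasDerivAt (fun u : ℝ => c * (k.descFactorial n : ℂ) * (u : ℂ) ^ (k - n))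
        (c * (k.descFactorial n : ℂ) * (((k - n : ℕ) : ℂ) * (u : ℂ) ^ (k - n - 1) * 1)) u :=
      (((hasDerivAt_id u).ofReal_comp).pow (k - n)).const_mul _
    rw [h1.deriv, Nat.descFactorial_succ, Nat.cast_mul, Nat.sub_sub]
    ring

private theorem Borel_bump : ∃ χ : ℝ → ℝ, ContDiff ℝ ∞ χ ∧ HasCompactSupport χ ∧ (∀ᶠ u in 𝓝 (0 : ℝ), χ u = 1) := by
  let χ : ContDiffBump (0 : ℝ) := ⟨1, 2, one_pos, one_lt_two⟩
  exact ⟨χ, χ.contDiff, χ.hasCompactSupport, χ.eventuallyEq_one⟩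

theorem borel (a : ℕ → ℂ) : ∃ g : ℝ → ℂ, ContDiff ℝ ∞ g ∧ ∀ n, iteratedDeriv n g 0 = a n := by
  obtain ⟨χ, hχ, hχc, hχ1⟩ := Borel_bump
  obtain ⟨ψ, hψdef⟩ : ∃ ψ : ℕ → ℝ → ℂ, ψ = fun k u => ((χ u * u ^ k : ℝ) : ℂ) := ⟨_, rfl⟩
  have hψ : ∀ k, ContDiff ℝ ∞ (ψ k) := by
    intro k
    rw [hψdef]
    exact Complex.ofRealCLM.contDiff.comp (hχ.mul (contDiff_id.pow k))
  have hψc : ∀ k, HasCompactSupport (ψ k) := by
    intro k
    rw [hψdef]
    have h1 : HasCompactSupport (fun u : ℝ => χ u * u ^ k) := hχc.mul_right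
    exact h1.comp_left (g := fun x : ℝ => (x : ℂ)) Complex.ofReal_zero
  have hC : ∀ k n : ℕ, ∃ C : ℝ, 0 ≤ C ∧ ∀ u, ‖iteratedDeriv n (ψ k) u‖ ≤ C := by
    intro k n
    obtain ⟨C, hC⟩ := ((hψ k).continuous_iteratedFDeriv (m := n) (by exact_mod_cast le_top)).bounded_above_of_compact_support
      ((hψc k).iteratedFDeriv (𝕜 := ℝ) n)
    refine ⟨C, le_trans (norm_nonneg _) (hC 0), fun u => ?_⟩
    rw [← norm_iteratedFDeriv_eq_norm_iteratedDeriv]
    exact hC u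
  choose C hC0 hC using hC
  obtain ⟨c, hc⟩ : ∃ c : ℕ → ℂ, c = fun k => a k / (k.factorial : ℂ) := ⟨_, rfl⟩
  obtain ⟨M, hM⟩ : ∃ M : ℕ → ℝ, M = fun k => 1 + ∑ n ∈ Finset.range k, C k n := ⟨_, rfl⟩
  have hM1 : ∀ k, 1 ≤ M k := by
    intro k
    rw [hM]
    have := Finset.sum_nonneg (s := Finset.range k) (f := fun n => C k n) fun n _ => hC0 k n
    show 1 ≤ 1 + ∑ n ∈ Finset.range k, C k n
    linarith
  have hMC : ∀ k n, n < k → C k n ≤ M k := by
    intro k n hn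
    rw [hM]
    have := Finset.single_le_sum (f := fun n => C k n) (s := Finset.range k) (fun n _ => hC0 k n)
      (Finset.mem_range.2 hn)
    show C k n ≤ 1 + ∑ n ∈ Finset.range k, C k n
    have h2 : C k n ≤ ∑ n ∈ Finset.range k, C k n := this
    linarith
  obtain ⟨l, hl⟩ : ∃ l : ℕ → ℝ, l = fun k => 1 + 2 ^ k * ‖c k‖ * M k := ⟨_, rfl⟩
  have hl1 : ∀ k, 1 ≤ l k := by
    intro k
    rw [hl]
    have h1 := hM1 k
    have : 0 ≤ 2 ^ k * ‖c k‖ * M k := by positivity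
    show 1 ≤ 1 + 2 ^ k * ‖c k‖ * M k
    linarith
  have hlM : ∀ k, 2 ^ k * ‖c k‖ * M k ≤ l k := by
    intro k
    rw [hl]
    show 2 ^ k * ‖c k‖ * M k ≤ 1 + 2 ^ k * ‖c k‖ * M k
    linarith
  have hψn : ∀ k n : ℕ, ContDiff ℝ n (ψ k) := fun k n => (hψ k).of_le (by exact_mod_cast le_top)
  obtain ⟨f, hf⟩ : ∃ f : ℕ → ℝ → ℂ, f = fun k u => (c k * ((l k : ℂ)⁻¹) ^ k) * ψ k (l k * u) := ⟨_, rfl⟩
  have hfs : ∀ k, ContDiff ℝ ∞ (f k) := by
    intro k
    rw [hf]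
    exact contDiff_const.mul ((hψ k).comp (contDiff_const.mul contDiff_id))
  have hder : ∀ n k u, iteratedDeriv n (f k) u =
      (c k * ((l k : ℂ)⁻¹) ^ k) * (((l k) ^ n : ℝ) • iteratedDeriv n (ψ k) (l k * u)) := by
    intro n k u
    rw [hf]
    have h1 : ContDiff ℝ n (fun u => ψ k (l k * u)) :=
      ((hψ k).comp (contDiff_const.mul contDiff_id)).of_le (by exact_mod_cast le_top)
    have h2 : iteratedDeriv n (fun u => ψ k (l k * u)) u = (l k) ^ n • iteratedDeriv n (ψ k) (l k * u) := by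
      rw [iteratedDeriv_comp_const_smul (hψn k n) (l k)]
    show iteratedDeriv n (fun u => (c k * ((l k : ℂ)⁻¹) ^ k) * ψ k (l k * u)) u = _
    rw [iteratedDeriv_const_mul _ h1.contDiffAt, h2]
  have hA : ∀ n k u, ‖iteratedDeriv n (f k) u‖ ≤ ‖c k‖ * ((l k)⁻¹ ^ k * l k ^ n) * C k n := by
    intro n k u
    have hlp : 0 < l k := lt_of_lt_of_le one_pos (hl1 k)
    rw [hder, norm_mul, norm_mul, norm_pow, norm_inv, norm_smul, norm_pow, Complex.norm_real,
      Real.norm_eq_abs, abs_of_pos hlp]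
    calc ‖c k‖ * (l k)⁻¹ ^ k * (l k ^ n * ‖iteratedDeriv n (ψ k) (l k * u)‖)
        = ‖c k‖ * ((l k)⁻¹ ^ k * l k ^ n) * ‖iteratedDeriv n (ψ k) (l k * u)‖ := by ring
      _ ≤ _ := mul_le_mul_of_nonneg_left (hC k n _) (by positivity)
  have hB : ∀ n k u, n < k → ‖iteratedDeriv n (f k) u‖ ≤ (1 / 2) ^ k := by
    intro n k u hn
    refine (hA n k u).trans ?_
    have hlp : 0 < l k := lt_of_lt_of_le one_pos (hl1 k)
    have e1 : (l k)⁻¹ ^ k * l k ^ n ≤ (l k)⁻¹ := by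
      have e2 : (l k)⁻¹ ^ k * l k ^ n = (l k)⁻¹ ^ (k - n) := by
        have e3 : (l k)⁻¹ ^ k = (l k)⁻¹ ^ (k - n) * (l k)⁻¹ ^ n := by
          rw [← pow_add, Nat.sub_add_cancel hn.le]
        rw [e3, mul_assoc, ← mul_pow, inv_mul_cancel₀ hlp.ne', one_pow, mul_one]
      rw [e2]
      calc (l k)⁻¹ ^ (k - n) ≤ (l k)⁻¹ ^ 1 :=
            pow_le_pow_of_le_one (inv_nonneg.2 hlp.le) (inv_le_one_of_one_le₀ (hl1 k)) (by omega)
        _ = _ := pow_one _
    have h2 : (0 : ℝ) < 2 ^ k := by positivity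
    calc ‖c k‖ * ((l k)⁻¹ ^ k * l k ^ n) * C k n ≤ ‖c k‖ * (l k)⁻¹ * M k :=
          mul_le_mul (mul_le_mul_of_nonneg_left e1 (norm_nonneg _)) (hMC k n hn) (hC0 k n) (by positivity)
      _ ≤ (1 / 2) ^ k := by
        rw [div_pow, one_pow, le_div_iff₀ h2]
        calc ‖c k‖ * (l k)⁻¹ * M k * 2 ^ k = (2 ^ k * ‖c k‖ * M k) * (l k)⁻¹ := by ring
          _ ≤ l k * (l k)⁻¹ := mul_le_mul_of_nonneg_right (hlM k) (inv_nonneg.2 hlp.le)
          _ = 1 := mul_inv_cancel₀ hlp.ne'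
  obtain ⟨v, hv⟩ : ∃ v : ℕ → ℕ → ℝ, v = fun n k => if n < k then (1 / 2 : ℝ) ^ k else
      ‖c k‖ * ((l k)⁻¹ ^ k * l k ^ n) * C k n := ⟨_, rfl⟩
  have hvs : ∀ n, Summable (v n) := by
    intro n
    rw [← summable_nat_add_iff (n + 1)]
    have e1 : (fun k => v n (k + (n + 1))) = fun k => (1 / 2 : ℝ) ^ (k + (n + 1)) := by
      funext k
      rw [hv]
      show (if n < k + (n + 1) then (1 / 2 : ℝ) ^ (k + (n + 1)) else _) = _
      rw [if_pos (by omega)]
    rw [e1]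
    exact (summable_nat_add_iff (f := fun k => (1 / 2 : ℝ) ^ k) (n + 1)).2 summable_geometric_two
  have hbd : ∀ (n k : ℕ) (u : ℝ), ‖iteratedFDeriv ℝ n (f k) u‖ ≤ v n k := by
    intro n k u
    rw [norm_iteratedFDeriv_eq_norm_iteratedDeriv, hv]
    by_cases hn : n < k
    · show _ ≤ (if n < k then (1 / 2 : ℝ) ^ k else _)
      rw [if_pos hn]
      exact hB n k u hn
    · show _ ≤ (if n < k then (1 / 2 : ℝ) ^ k else _)
      rw [if_neg hn]
      exact hA n k u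
  have h0 : ∀ n k, iteratedDeriv n (f k) 0 = if n = k then a k else 0 := by
    intro n k
    have hlp : 0 < l k := lt_of_lt_of_le one_pos (hl1 k)
    have hlc : (l k : ℂ) ≠ 0 := by exact_mod_cast hlp.ne'
    have ht : Tendsto (fun u : ℝ => l k * u) (𝓝 0) (𝓝 0) := by
      have h5 : Continuous fun u : ℝ => l k * u := continuous_const.mul continuous_id
      have h6 := h5.tendsto 0
      rw [mul_zero] at h6
      exact h6
    have he : f k =ᶠ[𝓝 0] fun u : ℝ => c k * (u : ℂ) ^ k := by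
      filter_upwards [ht.eventually hχ1] with u hu
      rw [hf, hψdef]
      show c k * ((l k : ℂ)⁻¹) ^ k * ((χ (l k * u) * (l k * u) ^ k : ℝ) : ℂ) = c k * (u : ℂ) ^ k
      rw [hu, one_mul]
      push_cast
      rw [mul_assoc, ← mul_pow, inv_mul_cancel_left₀ hlc]
    rw [he.iteratedDeriv_eq n, Borel_pow]
    show c k * (k.descFactorial n : ℂ) * ((0 : ℝ) : ℂ) ^ (k - n) = _
    rcases lt_trichotomy n k with h | h | h
    · rw [if_neg (by omega), Complex.ofReal_zero, zero_pow (by omega), mul_zero]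
    · subst h
      rw [if_pos rfl, Nat.sub_self, pow_zero, mul_one, Nat.descFactorial_self, hc]
      exact div_mul_cancel₀ _ (by exact_mod_cast n.factorial_ne_zero)
    · rw [if_neg (by omega), Nat.descFactorial_of_lt h, Nat.cast_zero, mul_zero, zero_mul]
  refine ⟨fun u => ∑' k, f k u, ?_, fun n => ?_⟩
  · exact contDiff_tsum (N := ⊤) (v := v) (fun k => hfs k) (fun n _ => hvs n) (fun n k u _ => hbd n k u)
  · have h1 := iteratedFDeriv_tsum_apply (𝕜 := ℝ) (N := ⊤) (v := v) (fun k => hfs k) (fun n _ => hvs n)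
      (fun n k u _ => hbd n k u) (k := n) le_top 0
    have hz : ∀ k, k ≠ n → iteratedFDeriv ℝ n (f k) 0 = 0 := by
      intro k hk
      rw [← norm_eq_zero, norm_iteratedFDeriv_eq_norm_iteratedDeriv, h0, if_neg (Ne.symm hk), norm_zero]
    rw [iteratedDeriv_eq_iteratedFDeriv, h1, tsum_eq_single n hz, ← iteratedDeriv_eq_iteratedFDeriv, h0, if_pos rfl]

end Pool.Agent.H86.PL
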