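import Pool.Agent.H73.CO.Defs

/-!
# Planar part of Theorem IV (MP_3dbb84_gt): arcs in the quotient plane, definitions

The quotient of the cylinder `T*S¹` (coordinate `z = θ + iρ`) by `z ↦ -z`, `z ↦ z + 2π` is the plane `ℂ`, by `w = cos z`. An odd curve `γ` becomes an arc
`β` with `cos (γ t) = β (cos t)` from `β (-1) = -1` to `β 1 = 1`. `b (s, x)`: isotopy of arcs from `x` (`s ≤ 0`) to `β` (`s ≥ 1`). `c (s, t)`: its lift, `cos (c (s, t)) = b (s, cos t)`.
`k (s, w)`: Hamiltonian in the quotient plane, `HK k s z = k (s, cos z)`. All functions are smooth on the whole real line (plane), the arcs are embedded on `[-1, 1]`.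
-/

set_option autoImplicit false

open scoped ContDiff Topology
open Set Filter

namespace Pool.Agent.H86.PL

/-- An embedded smooth arc from `-1` to `1`; `β` is smooth on the whole real line, embedded on `[-1, 1]`. -/
structure Arc (β : ℝ → ℂ) : Prop where
  smooth : ContDiff ℝ ∞ β
  one : β 1 = 1
  mone : β (-1) = -1
  inj : ∀ x ∈ Icc (-1 : ℝ) 1, ∀ y ∈ Icc (-1 : ℝ) 1, β x = β y → x = y
  imm : ∀ x ∈ Icc (-1 : ℝ) 1, deriv β x ≠ 0

/-- An isotopy of arcs from the segment to `β`. -/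
structure ArcIso (β : ℝ → ℂ) (b : ℝ × ℝ → ℂ) : Prop where
  smooth : ContDiff ℝ ∞ b
  arc : ∀ s, Arc fun x => b (s, x)
  start : ∀ x : ℝ, b (0, x) = x
  fin : ∀ x : ℝ, b (1, x) = β x

/-- A lift of the isotopy of arcs to the plane of `z = θ + iρ`. -/
structure ArcLift (b : ℝ × ℝ → ℂ) (c : ℝ × ℝ → ℂ) : Prop where
  smooth : ContDiff ℝ ∞ c
  cos : ∀ s t, Complex.cos (c (s, t)) = b (s, Real.cos t)
  odd : ∀ s t, c (s, -t) = -c (s, t)
  per : ∀ s t, c (s, t + 2 * Real.pi) = c (s, t) + ((2 * Real.pi : ℝ) : ℂ)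
  start : ∀ t : ℝ, c (0, t) = t

/-- derivative in the first variable -/
noncomputable def d1 (c : ℝ × ℝ → ℂ) (p : ℝ × ℝ) : ℂ := fderiv ℝ c p (1, 0)

/-- derivative in the second variable -/
noncomputable def d2 (c : ℝ × ℝ → ℂ) (p : ℝ × ℝ) : ℂ := fderiv ℝ c p (0, 1)

/-- the Hamiltonian `k (s, cos z)` -/
noncomputable def HK (k : ℝ × ℂ → ℝ) (s : ℝ) (z : ℂ) : ℝ := k (s, Complex.cos z)

/-- the Hamiltonian vector field of `k (s, cos z)` -/
noncomputable def XK (k : ℝ × ℂ → ℝ) (s : ℝ) (z : ℂ) : ℂ :=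
  ⟨fderiv ℝ (HK k s) z Complex.I, -fderiv ℝ (HK k s) z 1⟩

end Pool.Agent.H86.PL
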