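import Pool.Agent.H86.PL.Defs
import Pool.Agent.H86.PL.Par

/-!
# Module LiftA: the quotient `(1 - b²)/(1 - x²)` and a square root

* `exists_D`: `exists_div2` for `1 - b (s, x) ^ 2`. `D ≠ 0` on `[-1, 1]`: if `|x| < 1`, `b (s, x) ≠ ± 1 = b (s, ± 1)` by `inj`, so `1 - b² ≠ 0`. `x = 1`: derivative of `1 - b (s, x)² = (1 - x²) D` in `x` at `1`: `-2 b_x (s, 1) = -2 D (s, 1)`, `b_x ≠ 0` (`imm`); `x = -1`: `2 b_x (s, -1) = 2 D (s, -1)`.
`D (0, x) = 1`: `b (0, x) = x`, so `(1 - x²) = (1 - x²) D (0, x)`, hence for `x ≠ ± 1`, and by continuity for all `x`.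
* `exists_kap`: `Dh (s, t) = D (s, cos t)` is smooth, without zeros. `kap (s, t) = exp (1/2 ∫₀ˢ (∂_s Dh (σ, t)) / Dh (σ, t) dσ)`, smooth (`contDiff_prim` with the variables exchanged). `kap ^ 2 = Dh`: the derivative in `s` of `kap² / Dh` is `0`, and it is `1` at `s = 0`. Even in `t` since `Dh` is.
-/

set_option autoImplicit false

open scoped ContDiff Topology
open Set Filter

namespace Pool.Agent.H86.PL

private lemma LiftA_end {b D : ℝ × ℝ → ℂ} (hD : ContDiff ℝ ∞ D)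
    (hd : ∀ s x, 1 - b (s, x) ^ 2 = (1 - x ^ 2) • D (s, x)) (s e : ℝ) (he : e ^ 2 = 1) {b' : ℂ}
    (hb : HasDerivAt (fun x => b (s, x)) b' e) (hbe : b (s, e) = e) : D (s, e) = b' := by
  have h1 : HasDerivAt (fun x => 1 - b (s, x) ^ 2) (-(2 * b (s, e) ^ (2 - 1) * b')) e := by
    have := (hb.pow 2).const_sub 1
    simpa using this
  have hDd : HasDerivAt (fun x : ℝ => D (s, x)) (deriv (fun x : ℝ => D (s, x)) e) e := by
    have : ContDiff ℝ ∞ fun x : ℝ => D (s, x) := hD.comp (contDiff_const.prodMk contDiff_id)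
    exact (this.differentiable (by simp)).differentiableAt.hasDerivAt
  have h2 : HasDerivAt (fun x : ℝ => (1 - x ^ 2) • D (s, x))
      ((1 - e ^ 2) • deriv (fun x : ℝ => D (s, x)) e + (-(2 * e)) • D (s, e)) e := by
    have h3 : HasDerivAt (fun x : ℝ => 1 - x ^ 2) (-(2 * e)) e := by
      have := (hasDerivAt_pow 2 e).const_sub 1
      simpa using this
    exact h3.smul hDd
  have h4 : (fun x => 1 - b (s, x) ^ 2) = fun x : ℝ => (1 - x ^ 2) • D (s, x) := by
    funext x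
    exact hd s x
  rw [h4] at h1
  have h5 := h1.unique h2
  rw [he, sub_self, zero_smul, zero_add, hbe, Complex.real_smul] at h5
  have h6 : (e : ℂ) ≠ 0 := by
    rw [Complex.ofReal_ne_zero]
    intro h0
    rw [h0] at he
    norm_num at he
  push_cast at h5
  have h7 : (e : ℂ) * D (s, e) = (e : ℂ) * b' := by
    simp only [pow_one] at h5
    linear_combination (1 / 2 : ℂ) * h5
  exact mul_left_cancel₀ h6 h7

theorem exists_D {β : ℝ → ℂ} {b : ℝ × ℝ → ℂ} (h : ArcIso β b) : ∃ D : ℝ × ℝ → ℂ, ContDiff ℝ ∞ D ∧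
    (∀ s x, 1 - b (s, x) ^ 2 = (1 - x ^ 2) • D (s, x)) ∧ (∀ s, ∀ x ∈ Icc (-1 : ℝ) 1, D (s, x) ≠ 0) ∧
    ∀ x, D (0, x) = 1 := by
  have hf : ContDiff ℝ ∞ fun p : ℝ × ℝ => 1 - b p ^ 2 := contDiff_const.sub (h.smooth.pow 2)
  have e1 : ∀ s, b (s, 1) = 1 := fun s => (h.arc s).one
  have e2 : ∀ s, b (s, -1) = -1 := fun s => (h.arc s).mone
  obtain ⟨D, hD, hd⟩ := exists_div2 hf (fun s => by simp [e1 s]) (fun s => by simp [e2 s])
  refine ⟨D, hD, hd, ?_, ?_⟩
  · intro s x hx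
    have hbx : ∀ y, HasDerivAt (fun x => b (s, x)) (deriv (fun x => b (s, x)) y) y := by
      intro y
      exact ((h.arc s).smooth.differentiable (by simp)).differentiableAt.hasDerivAt
    by_cases hx1 : x = 1
    · subst hx1
      have h1 := LiftA_end hD hd s 1 (by norm_num) (hbx 1) (by simp [e1 s])
      rw [h1]
      exact (h.arc s).imm 1 hx
    by_cases hx2 : x = -1
    · subst hx2
      have h1 := LiftA_end hD hd s (-1) (by norm_num) (hbx (-1)) (by simp [e2 s])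
      rw [h1]
      exact (h.arc s).imm (-1) hx
    intro h0
    have h1 := hd s x
    rw [h0, smul_zero] at h1
    have h2 : (1 - b (s, x)) * (1 + b (s, x)) = 0 := by
      rw [← h1]; ring
    rcases mul_eq_zero.1 h2 with h3 | h3
    · refine hx1 ((h.arc s).inj x hx 1 (by norm_num) ?_)
      show b (s, x) = b (s, 1)
      rw [e1 s]
      linear_combination -h3
    · refine hx2 ((h.arc s).inj x hx (-1) (by norm_num) ?_)
      show b (s, x) = b (s, -1)
      rw [e2 s]
      linear_combination h3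
  · have hc : Continuous fun x : ℝ => D (0, x) :=
      hD.continuous.comp (continuous_const.prodMk continuous_id)
    have hdense : Dense (({1, -1} : Set ℝ)ᶜ) :=
      Set.Countable.dense_compl ℝ (Set.toFinite _).countable
    have := Continuous.ext_on hdense hc (continuous_const (y := (1 : ℂ))) (fun x hx => by
      simp only [mem_compl_iff, mem_insert_iff, mem_singleton_iff, not_or] at hx
      have h1 := hd 0 x
      rw [h.start x, Complex.real_smul] at h1
      have h2 : ((1 - x ^ 2 : ℝ) : ℂ) ≠ 0 := by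
        rw [Complex.ofReal_ne_zero]
        intro h3
        have h4 : (1 - x) * (1 + x) = 0 := by rw [← h3]; ring
        rcases mul_eq_zero.1 h4 with h5 | h5
        · exact hx.1 (by linarith)
        · exact hx.2 (by linarith)
      have h3 : ((1 - x ^ 2 : ℝ) : ℂ) * D (0, x) = ((1 - x ^ 2 : ℝ) : ℂ) * 1 := by
        rw [← h1]; push_cast; ring
      exact mul_left_cancel₀ h2 h3)
    intro x
    exact congrFun this x

theorem exists_kap {D : ℝ × ℝ → ℂ} (hD : ContDiff ℝ ∞ D) (h0 : ∀ s, ∀ x ∈ Icc (-1 : ℝ) 1, D (s, x) ≠ 0)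
    (h1 : ∀ x, D (0, x) = 1) : ∃ κ : ℝ × ℝ → ℂ, ContDiff ℝ ∞ κ ∧
      (∀ s t, κ (s, t) ^ 2 = D (s, Real.cos t)) ∧ (∀ s t, κ (s, -t) = κ (s, t)) ∧
      (∀ s t, κ (s, t + 2 * Real.pi) = κ (s, t)) ∧ ∀ t, κ (0, t) = 1 := by
  have hcos : ContDiff ℝ ∞ fun p : ℝ × ℝ => (p.1, Real.cos p.2) :=
    contDiff_fst.prodMk (Real.contDiff_cos.comp contDiff_snd)
  obtain ⟨E, hE⟩ : ∃ E : ℝ × ℝ → ℂ, E = fun p => D (p.1, Real.cos p.2) := ⟨_, rfl⟩
  have hEs : ContDiff ℝ ∞ E := by rw [hE]; exact hD.comp hcos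
  have hE0 : ∀ p, E p ≠ 0 := fun p => by
    rw [hE]
    exact h0 _ _ ⟨Real.neg_one_le_cos _, Real.cos_le_one _⟩
  have hE1 : ∀ t, E (0, t) = 1 := fun t => by rw [hE]; exact h1 _
  obtain ⟨R, hR⟩ : ∃ R : ℝ × ℝ → ℂ, R = fun p => fderiv ℝ E p (1, 0) * (E p)⁻¹ := ⟨_, rfl⟩
  have hRs : ContDiff ℝ ∞ R := by
    rw [hR]
    have a1 : ContDiff ℝ ∞ fun p => fderiv ℝ E p := hEs.fderiv_right (by simp)
    exact (a1.clm_apply contDiff_const).mul (hEs.inv hE0)
  have hder : ∀ s t, HasDerivAt (fun σ => E (σ, t)) (fderiv ℝ E (s, t) (1, 0)) s := by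
    intro s t
    have a1 : HasFDerivAt E (fderiv ℝ E (s, t)) (s, t) :=
      ((hEs.differentiable (by simp)) (s, t)).hasFDerivAt
    have a2 : HasDerivAt (fun σ : ℝ => (σ, t)) ((1 : ℝ), (0 : ℝ)) s :=
      (hasDerivAt_id s).prodMk (hasDerivAt_const s t)
    exact a1.comp_hasDerivAt s a2
  have hRd : ∀ s t, R (s, t) = deriv (fun σ => E (σ, t)) s * (E (s, t))⁻¹ := by
    intro s t
    rw [hR, (hder s t).deriv]
  have hRc : ∀ t, Continuous fun σ => R (σ, t) := fun t =>
    hRs.continuous.comp (continuous_id.prodMk continuous_const)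
  obtain ⟨G, hG⟩ : ∃ G : ℝ × ℝ → ℂ, G = fun p => ∫ τ in (0 : ℝ)..p.1, R (τ, p.2) := ⟨_, rfl⟩
  have hGs : ContDiff ℝ ∞ G := by
    have a1 : ContDiff ℝ ∞ fun p : ℝ × ℝ => R (p.2, p.1) :=
      hRs.comp (contDiff_snd.prodMk contDiff_fst)
    have a2 := contDiff_prim a1
    have a3 := a2.comp (contDiff_snd.prodMk contDiff_fst : ContDiff ℝ ∞ fun p : ℝ × ℝ => (p.2, p.1))
    rw [hG]
    exact a3
  have hGd : ∀ s t, HasDerivAt (fun σ => G (σ, t)) (R (s, t)) s := by
    intro s t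
    rw [hG]
    exact ((hRc t).integral_hasStrictDerivAt 0 s).hasDerivAt
  have hG0 : ∀ t, G (0, t) = 0 := fun t => by
    rw [hG]
    simp
  have key : ∀ s t, Complex.exp (G (s, t)) = E (s, t) := by
    intro s t
    have a1 : ∀ σ, HasDerivAt (fun σ => Complex.exp (G (σ, t)) * (E (σ, t))⁻¹) 0 σ := by
      intro σ
      have b1 := (hGd σ t).cexp
      have b2 := (hder σ t).inv (hE0 (σ, t))
      have b3 : HasDerivAt (fun σ => Complex.exp (G (σ, t)) * (E (σ, t))⁻¹)
          (Complex.exp (G (σ, t)) * R (σ, t) * (E (σ, t))⁻¹ +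
            Complex.exp (G (σ, t)) * (-(fderiv ℝ E (σ, t)) (1, 0) / E (σ, t) ^ 2)) σ := b1.mul b2
      have b4 : Complex.exp (G (σ, t)) * R (σ, t) * (E (σ, t))⁻¹ +
          Complex.exp (G (σ, t)) * (-(fderiv ℝ E (σ, t)) (1, 0) / E (σ, t) ^ 2) = 0 := by
        have := hE0 (σ, t)
        rw [hR]
        field_simp
        ring
      rw [b4] at b3
      exact b3
    have a2 := is_const_of_deriv_eq_zero (f := fun σ => Complex.exp (G (σ, t)) * (E (σ, t))⁻¹)
      (fun σ => (a1 σ).differentiableAt) (fun σ => (a1 σ).deriv) s 0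
    simp only [hG0, hE1, Complex.exp_zero, inv_one, mul_one] at a2
    have := hE0 (s, t)
    field_simp at a2
    exact a2
  have hEn : ∀ s t, E (s, -t) = E (s, t) := fun s t => by rw [hE]; simp
  have hEp : ∀ s t, E (s, t + 2 * Real.pi) = E (s, t) := fun s t => by rw [hE]; simp
  have hRn : ∀ s t, R (s, -t) = R (s, t) := fun s t => by
    rw [hRd, hRd, hEn]
    have : (fun σ => E (σ, -t)) = fun σ => E (σ, t) := by
      funext σ
      exact hEn σ t
    rw [this]
  have hRp : ∀ s t, R (s, t + 2 * Real.pi) = R (s, t) := fun s t => by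
    rw [hRd, hRd, hEp]
    have : (fun σ => E (σ, t + 2 * Real.pi)) = fun σ => E (σ, t) := by
      funext σ
      exact hEp σ t
    rw [this]
  have hc2 : ContDiff ℝ ∞ fun p => (1 / 2 : ℂ) * G p := contDiff_const.mul hGs
  refine ⟨fun p => Complex.exp (1 / 2 * G p), hc2.cexp, ?_, ?_, ?_, ?_⟩
  · intro s t
    show Complex.exp (1 / 2 * G (s, t)) ^ 2 = D (s, Real.cos t)
    rw [← Complex.exp_nat_mul]
    have : ((2 : ℕ) : ℂ) * (1 / 2 * G (s, t)) = G (s, t) := by push_cast; ring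
    rw [this, key, hE]
  · intro s t
    have : G (s, -t) = G (s, t) := by
      rw [hG]
      simp only [hRn]
    simp only [this]
  · intro s t
    have : G (s, t + 2 * Real.pi) = G (s, t) := by
      rw [hG]
      simp only [hRp]
    simp only [this]
  · intro t
    simp only [hG0, mul_zero, Complex.exp_zero]

end Pool.Agent.H86.PL
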