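import Pool.Agent.H86.PL.LiftA

/-!
# Module LiftB: the lift of the isotopy of arcs

* `exists_lift`. PROOF. `D`, `κ` from LiftA. `e (s, t) = b (s, cos t) + i κ (s, t) sin t`; `e (s, t) * (b (s, cos t) - i κ sin t) = b² + κ² sin² t = b² + (1 - cos² t) D = 1`, so `e ≠ 0` and `e (s, -t) = (e (s, t))⁻¹` (κ even). `e (s, t + 2π) = e (s, t)`, `e (s, 0) = b (s, 1) = 1`, `e (0, t) = cos t + i sin t`.
`q = (∂_t e) / e`, smooth; `c (s, t) = -i ∫₀ᵗ q (s, τ) dτ` (`contDiff_prim`). `exp (i c) = e`: the derivative of `exp (-i c) * e` in `t` is `0`, and it is `1` at `t = 0`. `cos c = (e + e⁻¹)/2 = b (s, cos t)`. `q` is even in `t` (differentiate `e (s, -t) * e (s, t) = 1`), so `c` is odd (`intervalIntegral.integral_comp_neg`);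
`q` is `2π`-periodic, so `c (s, t + 2π) = c (s, t) + c (s, 2π)` (both sides have the same derivative in `t` and agree at `t = 0`), `exp (i c (s, 2π)) = e (s, 2π) = 1`, so `c (s, 2π) ∈ 2π ℤ` (`Complex.exp_eq_one_iff`); it is continuous in `s`, hence constant (a continuous function on `ℝ` with values in
the discrete set `2π ℤ`; for example the real part divided by `2π` is continuous with integer values), and `c (0, 2π) = 2π` because `c (0, t) = t` (`q (0, t) = i`).
* `lift_rel`: derivatives of `cos (c (s, t)) = b (s, cos t)` in `t` and in `s`, and `sin² = 1 - cos²`.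
* `lift_imm`: if `sin t ≠ 0`: `d2 b (s, cos t) ≠ 0` (`imm`: `d2 b (s, x)` is the derivative of `x ↦ b (s, x)`), first relation. If `sin t = 0`: `sin (c (s, t)) ^ 2 = 1 - b (s, ±1) ^ 2 = 0`; differentiate the first relation in `t` at this point: `cos (c) (d2 c)² + sin (c) (…) = cos t • d2 b (s, cos t) + sin t • (…)`, so
`(d2 c)² cos (c) = cos t • d2 b ≠ 0`.
-/

set_option autoImplicit false

open scoped ContDiff Topology
open Set Filter

namespace Pool.Agent.H86.PL

variable {β : ℝ → ℂ} {b c : ℝ × ℝ → ℂ}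

private theorem LiftB_t {F : ℝ × ℝ → ℂ} (hF : ContDiff ℝ ∞ F) (s t : ℝ) :
    HasDerivAt (fun t => F (s, t)) (d2 F (s, t)) t := by
  have h1 : HasFDerivAt F (fderiv ℝ F (s, t)) (s, t) :=
    (hF.differentiable (by simp) (s, t)).hasFDerivAt
  have h2 : HasDerivAt (fun t : ℝ => ((s, t) : ℝ × ℝ)) ((0, 1) : ℝ × ℝ) t :=
    (hasDerivAt_const t s).prodMk (hasDerivAt_id t)
  exact h1.comp_hasDerivAt t h2

private theorem LiftB_s {F : ℝ × ℝ → ℂ} (hF : ContDiff ℝ ∞ F) (s t : ℝ) :
    HasDerivAt (fun s => F (s, t)) (d1 F (s, t)) s := by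
  have h1 : HasFDerivAt F (fderiv ℝ F (s, t)) (s, t) :=
    (hF.differentiable (by simp) (s, t)).hasFDerivAt
  have h2 : HasDerivAt (fun s : ℝ => ((s, t) : ℝ × ℝ)) ((1, 0) : ℝ × ℝ) s :=
    (hasDerivAt_id s).prodMk (hasDerivAt_const s t)
  exact h1.comp_hasDerivAt s h2

private theorem LiftB_d2 {F : ℝ × ℝ → ℂ} (hF : ContDiff ℝ ∞ F) : ContDiff ℝ ∞ (d2 F) :=
  (hF.fderiv_right (m := ∞) (by simp)).clm_apply contDiff_const

/-- a differentiable function with `exp (i φ) = 1` is constant -/
private theorem LiftB_const {φ : ℝ → ℂ} (hφ : Differentiable ℝ φ)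
    (h1 : ∀ t, Complex.exp (Complex.I * φ t) = 1) (t : ℝ) : φ t = φ 0 := by
  refine is_const_of_deriv_eq_zero hφ (fun t => ?_) t 0
  have a := ((hφ t).hasDerivAt.const_mul Complex.I).cexp
  have e : (fun t => Complex.exp (Complex.I * φ t)) = fun _ => (1 : ℂ) := funext h1
  rw [e, h1 t, one_mul] at a
  have b := a.unique (hasDerivAt_const t (1 : ℂ))
  exact (mul_eq_zero.1 b).resolve_left Complex.I_ne_zero

/-- the logarithm of a nowhere vanishing function -/
private theorem LiftB_log {e : ℝ × ℝ → ℂ} (he : ContDiff ℝ ∞ e) (h0 : ∀ p, e p ≠ 0)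
    (h1 : ∀ s, e (s, 0) = 1) : ∃ c : ℝ × ℝ → ℂ, ContDiff ℝ ∞ c ∧ (∀ s, c (s, 0) = 0) ∧
      ∀ p, Complex.exp (Complex.I * c p) = e p := by
  have hq : ContDiff ℝ ∞ fun p => d2 e p * (e p)⁻¹ := (LiftB_d2 he).mul (he.inv h0)
  refine ⟨fun p => -Complex.I * ∫ τ in (0 : ℝ)..p.2, d2 e (p.1, τ) * (e (p.1, τ))⁻¹,
    contDiff_const.mul (contDiff_prim hq), fun s => by simp, ?_⟩
  rintro ⟨s, t⟩
  have hqc : Continuous fun τ : ℝ => d2 e (s, τ) * (e (s, τ))⁻¹ :=
    hq.continuous.comp (by fun_prop : Continuous fun τ : ℝ => ((s, τ) : ℝ × ℝ))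
  have hd : ∀ t : ℝ, HasDerivAt (fun t => ∫ τ in (0 : ℝ)..t, d2 e (s, τ) * (e (s, τ))⁻¹)
      (d2 e (s, t) * (e (s, t))⁻¹) t := fun t =>
    intervalIntegral.integral_hasDerivAt_right (hqc.intervalIntegrable _ _)
      hqc.stronglyMeasurable.stronglyMeasurableAtFilter hqc.continuousAt
  set I₀ : ℝ → ℂ := fun t => ∫ τ in (0 : ℝ)..t, d2 e (s, τ) * (e (s, τ))⁻¹ with hI₀
  have hG : ∀ t : ℝ, HasDerivAt (fun t => Complex.exp (-I₀ t) * e (s, t)) 0 t := by
    intro t
    have a := ((hd t).neg.cexp).mul (LiftB_t he s t)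
    refine a.congr_deriv ?_
    have := h0 (s, t)
    simp only [Pi.neg_apply]
    field_simp
    ring
  have hconst : Complex.exp (-I₀ t) * e (s, t) = Complex.exp (-I₀ 0) * e (s, 0) :=
    is_const_of_deriv_eq_zero (fun t => (hG t).differentiableAt) (fun t => (hG t).deriv) t 0
  have hz : I₀ 0 = 0 := by rw [hI₀]; simp
  rw [hz, neg_zero, Complex.exp_zero, one_mul, h1 s] at hconst
  have h5 : Complex.I * (-Complex.I * I₀ t) = I₀ t := by
    rw [← mul_assoc, mul_neg, Complex.I_mul_I, neg_neg, one_mul]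
  show Complex.exp (Complex.I * (-Complex.I * I₀ t)) = e (s, t)
  rw [h5]
  calc Complex.exp (I₀ t) = Complex.exp (I₀ t) * (Complex.exp (-I₀ t) * e (s, t)) := by
        rw [hconst, mul_one]
    _ = e (s, t) := by
        rw [← mul_assoc, ← Complex.exp_add, add_neg_cancel, Complex.exp_zero, one_mul]

theorem exists_lift (h : ArcIso β b) : ∃ c : ℝ × ℝ → ℂ, ArcLift b c := by
  obtain ⟨D, hD, hDe, hD0, hD1⟩ := exists_D h
  obtain ⟨κ, hκ, hκ2, hκe, hκp, hκ1⟩ := exists_kap hD hD0 hD1
  set e : ℝ × ℝ → ℂ := fun p =>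
    b (p.1, Real.cos p.2) + Complex.I * κ p * ((Real.sin p.2 : ℝ) : ℂ) with he
  have heS : ContDiff ℝ ∞ e := by
    have a1 : ContDiff ℝ ∞ fun p : ℝ × ℝ => b (p.1, Real.cos p.2) :=
      h.smooth.comp (contDiff_fst.prodMk (Real.contDiff_cos.comp contDiff_snd))
    have a2 : ContDiff ℝ ∞ fun p : ℝ × ℝ => ((Real.sin p.2 : ℝ) : ℂ) :=
      Complex.ofRealCLM.contDiff.comp (Real.contDiff_sin.comp contDiff_snd)
    exact a1.add ((contDiff_const.mul hκ).mul a2)
  have hprod : ∀ s t, e (s, -t) * e (s, t) = 1 := by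
    intro s t
    have a := hDe s (Real.cos t)
    have a2 := hκ2 s t
    have a3 : ((Real.sin t : ℝ) : ℂ) ^ 2 = ((1 - Real.cos t ^ 2 : ℝ) : ℂ) := by
      rw [← Complex.ofReal_pow, Real.sin_sq]
    simp only [he, Real.cos_neg, Real.sin_neg, hκe, Complex.ofReal_neg]
    rw [Complex.real_smul, ← a2, ← a3] at a
    have hI : Complex.I ^ 2 = -1 := Complex.I_sq
    linear_combination (-1 : ℂ) * a - (κ (s, t)) ^ 2 * ((Real.sin t : ℝ) : ℂ) ^ 2 * hI
  have he0 : ∀ p, e p ≠ 0 := by
    rintro ⟨s, t⟩ h0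
    have := hprod s t
    rw [h0, mul_zero] at this
    exact zero_ne_one this
  have heper : ∀ s t, e (s, t + 2 * Real.pi) = e (s, t) := by
    intro s t
    simp only [he, Real.cos_add_two_pi, Real.sin_add_two_pi, hκp]
  have hez : ∀ s, e (s, 0) = 1 := by
    intro s
    have a : b (s, 1) = 1 := (h.arc s).one
    simp [he, a]
  have hes : ∀ t : ℝ, e (0, t) = Complex.exp (Complex.I * t) := by
    intro t
    simp only [he]
    rw [h.start, hκ1, mul_one, mul_comm Complex.I (t : ℂ), Complex.exp_mul_I, Complex.ofReal_cos,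
      Complex.ofReal_sin]
    ring
  obtain ⟨c, hcS, hc0, hce⟩ := LiftB_log heS he0 hez
  have hcd : Differentiable ℝ c := hcS.differentiable (by simp)
  have hct : ∀ s, Differentiable ℝ fun t => c (s, t) := fun s t => (LiftB_t hcS s t).differentiableAt
  have hcs : ∀ t, Differentiable ℝ fun s => c (s, t) := fun t s => (LiftB_s hcS s t).differentiableAt
  have hstart : ∀ t : ℝ, c (0, t) = t := by
    intro t
    have hd : Differentiable ℝ fun t : ℝ => c (0, t) - (t : ℂ) :=
      (hct 0).sub (fun t => Complex.ofRealCLM.differentiableAt)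
    have a := LiftB_const hd (fun t => by
      rw [mul_sub, Complex.exp_sub, hce, hes]
      exact div_self (Complex.exp_ne_zero _)) t
    simp only [hc0, Complex.ofReal_zero, sub_zero] at a
    exact sub_eq_zero.1 a
  have hodd : ∀ s t, c (s, -t) = -c (s, t) := by
    intro s t
    have hd : Differentiable ℝ fun t : ℝ => c (s, -t) + c (s, t) :=
      ((hct s).comp differentiable_neg).add (hct s)
    have a := LiftB_const hd (fun t => by
      rw [mul_add, Complex.exp_add, hce, hce, hprod]) t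
    simp only [neg_zero, hc0, add_zero] at a
    exact eq_neg_of_add_eq_zero_left a
  have hper : ∀ s t, c (s, t + 2 * Real.pi) = c (s, t) + ((2 * Real.pi : ℝ) : ℂ) := by
    intro s t
    have hd : Differentiable ℝ fun t : ℝ => c (s, t + 2 * Real.pi) - c (s, t) :=
      ((hct s).comp (differentiable_id.add_const _)).sub (hct s)
    have a := LiftB_const hd (fun t => by
      rw [mul_sub, Complex.exp_sub, hce, hce, heper]
      exact div_self (he0 _)) t
    simp only [zero_add, hc0, sub_zero] at a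
    have b := LiftB_const (hcs (2 * Real.pi)) (fun s => by
      rw [hce]
      have := heper s 0
      rw [zero_add] at this
      rw [this, hez]) s
    rw [b, hstart] at a
    rw [← a]
    ring
  refine ⟨c, hcS, fun s t => ?_, hodd, hper, hstart⟩
  have a1 : Complex.exp (c (s, t) * Complex.I) = e (s, t) := by rw [mul_comm]; exact hce (s, t)
  have a2 : Complex.exp (-c (s, t) * Complex.I) = e (s, -t) := by
    rw [← hodd, mul_comm]; exact hce (s, -t)
  rw [Complex.cos, a1, a2]
  simp only [he, Real.cos_neg, Real.sin_neg, hκe, Complex.ofReal_neg]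
  ring

theorem lift_rel (h : ArcIso β b) (hc : ArcLift b c) (s t : ℝ) :
    Complex.sin (c (s, t)) * d2 c (s, t) = Real.sin t • d2 b (s, Real.cos t) ∧
      Complex.sin (c (s, t)) * d1 c (s, t) = -d1 b (s, Real.cos t) ∧
      Complex.sin (c (s, t)) ^ 2 = 1 - b (s, Real.cos t) ^ 2 := by
  refine ⟨?_, ?_, ?_⟩
  · have a : HasDerivAt (fun t => Complex.cos (c (s, t)))
        (d2 c (s, t) • -Complex.sin (c (s, t))) t := by
      have a0 := HasDerivAt.scomp t (Complex.hasDerivAt_cos (c (s, t))) (LiftB_t hc.smooth s t)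
      exact a0
    have e : (fun t => Complex.cos (c (s, t))) = fun t => b (s, Real.cos t) :=
      funext fun t => hc.cos s t
    rw [e] at a
    have b1 : HasDerivAt (fun t => b (s, Real.cos t)) (-Real.sin t • d2 b (s, Real.cos t)) t :=
      HasDerivAt.scomp t (LiftB_t h.smooth s (Real.cos t)) (Real.hasDerivAt_cos t)
    have b2 := a.unique b1
    rw [neg_smul, smul_eq_mul, mul_neg, neg_inj] at b2
    rw [mul_comm]
    exact b2
  · have a : HasDerivAt (fun s => Complex.cos (c (s, t)))
        (d1 c (s, t) • -Complex.sin (c (s, t))) s := by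
      have a0 := HasDerivAt.scomp s (Complex.hasDerivAt_cos (c (s, t))) (LiftB_s hc.smooth s t)
      exact a0
    have e : (fun s => Complex.cos (c (s, t))) = fun s => b (s, Real.cos t) :=
      funext fun s => hc.cos s t
    rw [e] at a
    have b2 := a.unique (LiftB_s h.smooth s (Real.cos t))
    rw [← b2, smul_eq_mul, mul_neg, neg_neg, mul_comm]
  · rw [← hc.cos s t]
    have := Complex.sin_sq_add_cos_sq (c (s, t))
    linear_combination this

theorem lift_imm (h : ArcIso β b) (hc : ArcLift b c) (s t : ℝ) : d2 c (s, t) ≠ 0 := by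
  have himm : ∀ x ∈ Icc (-1 : ℝ) 1, d2 b (s, x) ≠ 0 := by
    intro x hx
    have a := (h.arc s).imm x hx
    rwa [(LiftB_t h.smooth s x).deriv] at a
  have hb0 := himm (Real.cos t) ⟨Real.neg_one_le_cos t, Real.cos_le_one t⟩
  intro h0
  rcases eq_or_ne (Real.sin t) 0 with hs | hs
  · have hc2 : Real.cos t ^ 2 = 1 := by
      have := Real.sin_sq_add_cos_sq t
      rw [hs] at this
      linarith
    have hsc : Complex.sin (c (s, t)) = 0 := by
      have a := (lift_rel h hc s t).2.2
      have a2 : b (s, Real.cos t) ^ 2 = 1 := by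
        have hm : (Real.cos t - 1) * (Real.cos t + 1) = 0 := by linear_combination hc2
        rcases mul_eq_zero.1 hm with h1 | h1
        · rw [sub_eq_zero.1 h1]
          have : b (s, 1) = 1 := (h.arc s).one
          rw [this, one_pow]
        · rw [eq_neg_of_add_eq_zero_left h1]
          have : b (s, -1) = -1 := (h.arc s).mone
          rw [this]
          ring
      rw [a2, sub_self] at a
      exact pow_eq_zero_iff two_ne_zero |>.1 a
    have hsin : HasDerivAt (fun t => Complex.sin (c (s, t)))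
        (d2 c (s, t) • Complex.cos (c (s, t))) t := by
      have a0 := HasDerivAt.scomp t (Complex.hasDerivAt_sin (c (s, t))) (LiftB_t hc.smooth s t)
      exact a0
    have hL := hsin.mul (LiftB_t (LiftB_d2 hc.smooth) s t)
    have hd2b : HasDerivAt (fun t => d2 b (s, Real.cos t))
        (-Real.sin t • d2 (d2 b) (s, Real.cos t)) t :=
      HasDerivAt.scomp t (LiftB_t (LiftB_d2 h.smooth) s (Real.cos t)) (Real.hasDerivAt_cos t)
    have hR := (Real.hasDerivAt_sin t).smul hd2b
    have e : (fun t => Complex.sin (c (s, t)) * d2 c (s, t)) =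
        fun t => Real.sin t • d2 b (s, Real.cos t) := funext fun t => (lift_rel h hc s t).1
    have hL' : HasDerivAt (fun t => Complex.sin (c (s, t)) * d2 c (s, t)) 0 t := by
      refine hL.congr_deriv ?_
      rw [hsc, h0]
      simp
    rw [e] at hL'
    have hR' : HasDerivAt (fun t => Real.sin t • d2 b (s, Real.cos t))
        (Real.cos t • d2 b (s, Real.cos t)) t := by
      refine hR.congr_deriv ?_
      rw [hs]
      simp
    have a := hL'.unique hR'
    rcases smul_eq_zero.1 a.symm with h1 | h1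
    · rw [h1] at hc2
      norm_num at hc2
    · exact hb0 h1
  · have a := (lift_rel h hc s t).1
    rw [h0, mul_zero] at a
    rcases smul_eq_zero.1 a.symm with h1 | h1
    · exact hs h1
    · exact hb0 h1

end Pool.Agent.H86.PL
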